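import Pool.Agent.helper44.GB.PS

/-!
Left `E_2`-invariance of elementary orbits and multiplication of one entry by a square:
if `a b = 1` modulo the ideal of the entries different from `i, j`, then
`v ~_E (a ^ 2 v i, other entries)` (rows of length at least three).
-/

namespace GB

set_option linter.unusedSimpArgs false
set_option linter.unusedSectionVars false

open Matrix

section

variable {A ι : Type*} [CommRing A] [Fintype ι] [DecidableEq ι]

/-- commutator of elementary operations at the level of rows -/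
lemma O2_comm (u : ι → A) (i j k : ι) (hij : i ≠ j) (hik : i ≠ k) (hjk : j ≠ k)
    (wi wj κi κj : A) (h : κi * wi + κj * wj = 0) :
    EEq u (PS_rw2 u i j (u i + (u i * wi + u j * wj) * κi)
      (u j + (u i * wi + u j * wj) * κj)) := by
  set a1 := Function.update u k (u k + u i * wi) with h1
  set a2 := Function.update a1 k (a1 k + a1 j * wj) with h2
  set a3 := Function.update a2 i (a2 i + a2 k * κi) with h3
  set a4 := Function.update a3 j (a3 j + a3 k * κj) with h4
  set a5 := Function.update a4 k (a4 k + a4 i * (-wi)) with h5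
  set a6 := Function.update a5 k (a5 k + a5 j * (-wj)) with h6
  set a7 := Function.update a6 i (a6 i + a6 k * (-κi)) with h7
  set a8 := Function.update a7 j (a7 j + a7 k * (-κj)) with h8
  have t1 : EEq u a1 := EEq.add u i k hik _
  have t2 : EEq a1 a2 := EEq.add a1 j k hjk _
  have t3 : EEq a2 a3 := EEq.add a2 k i hik.symm _
  have t4 : EEq a3 a4 := EEq.add a3 k j hjk.symm _
  have t5 : EEq a4 a5 := EEq.add a4 i k hik _
  have t6 : EEq a5 a6 := EEq.add a5 j k hjk _
  have t7 : EEq a6 a7 := EEq.add a6 k i hik.symm _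
  have t8 : EEq a7 a8 := EEq.add a7 k j hjk.symm _
  set s := u i * wi + u j * wj with hs
  have e1i : a1 i = u i := by rw [h1, Function.update_of_ne hik]
  have e1j : a1 j = u j := by rw [h1, Function.update_of_ne hjk]
  have e1k : a1 k = u k + u i * wi := by rw [h1, Function.update_self]
  have e2i : a2 i = u i := by rw [h2, Function.update_of_ne hik, e1i]
  have e2j : a2 j = u j := by rw [h2, Function.update_of_ne hjk, e1j]
  have e2k : a2 k = u k + s := by rw [h2, Function.update_self, e1k, e1j, hs]; ring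
  have e3i : a3 i = u i + (u k + s) * κi := by rw [h3, Function.update_self, e2i, e2k]
  have e3j : a3 j = u j := by rw [h3, Function.update_of_ne hij.symm, e2j]
  have e3k : a3 k = u k + s := by rw [h3, Function.update_of_ne hik.symm, e2k]
  have e4i : a4 i = u i + (u k + s) * κi := by rw [h4, Function.update_of_ne hij, e3i]
  have e4j : a4 j = u j + (u k + s) * κj := by rw [h4, Function.update_self, e3j, e3k]
  have e4k : a4 k = u k + s := by rw [h4, Function.update_of_ne hjk.symm, e3k]
  have e5i : a5 i = u i + (u k + s) * κi := by rw [h5, Function.update_of_ne hik, e4i]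
  have e5j : a5 j = u j + (u k + s) * κj := by rw [h5, Function.update_of_ne hjk, e4j]
  have e5k : a5 k = u k + s - (u i + (u k + s) * κi) * wi := by
    rw [h5, Function.update_self, e4k, e4i]; ring
  have e6i : a6 i = u i + (u k + s) * κi := by rw [h6, Function.update_of_ne hik, e5i]
  have e6j : a6 j = u j + (u k + s) * κj := by rw [h6, Function.update_of_ne hjk, e5j]
  have e6k : a6 k = u k := by
    rw [h6, Function.update_self, e5k, e5j, hs]
    linear_combination (-(u k + (u i * wi + u j * wj))) * h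
  have e7i : a7 i = u i + s * κi := by rw [h7, Function.update_self, e6i, e6k]; ring
  have e7j : a7 j = u j + (u k + s) * κj := by rw [h7, Function.update_of_ne hij.symm, e6j]
  have e7k : a7 k = u k := by rw [h7, Function.update_of_ne hik.symm, e6k]
  have e8i : a8 i = u i + s * κi := by rw [h8, Function.update_of_ne hij, e7i]
  have e8j : a8 j = u j + s * κj := by rw [h8, Function.update_self, e7j, e7k]; ring
  have e8k : a8 k = u k := by rw [h8, Function.update_of_ne hjk.symm, e7k]
  have hfin : a8 = PS_rw2 u i j (u i + s * κi) (u j + s * κj) := by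
    ext l
    by_cases hli : l = i
    · rw [hli, e8i, PS_rw2_j _ _ _ hij]
    · by_cases hlj : l = j
      · rw [hlj, e8j, PS_rw2_k]
      · rw [PS_rw2_l _ _ _ _ hli hlj]
        by_cases hlk : l = k
        · rw [hlk, e8k]
        · rw [h8, Function.update_of_ne hlj, h7, Function.update_of_ne hli, h6,
            Function.update_of_ne hlk, h5, Function.update_of_ne hlk, h4,
            Function.update_of_ne hlj, h3, Function.update_of_ne hli, h2,
            Function.update_of_ne hlk, h1, Function.update_of_ne hlk]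
  have := (((((((t1.trans t2).trans t3).trans t4).trans t5).trans t6).trans t7).trans t8)
  rwa [hfin] at this

lemma O2_split (v w : ι → A) (i j : ι) (hij : i ≠ j) :
    v ⬝ᵥ w = v i * w i + v j * w j + ∑ l ∈ (Finset.univ.erase i).erase j, v l * w l := by
  rw [dotProduct, ← Finset.add_sum_erase Finset.univ _ (Finset.mem_univ i),
    ← Finset.add_sum_erase (Finset.univ.erase i) _ (Finset.mem_erase.2 ⟨hij.symm,
      Finset.mem_univ j⟩)]
  ring

/-- left transvection -/
lemma O2_left (v w : ι → A) (hvw : v ⬝ᵥ w = 1) (i j k : ι) (hij : i ≠ j) (hik : i ≠ k)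
    (hjk : j ≠ k) (c : A) :
    EEq v (PS_rw2 v i j (v i - c * w j) (v j + c * w i)) := by
  set s := v i * w i + v j * w j with hs
  have hrest : 1 - s ∈ Ideal.span (v '' {l | l ≠ i ∧ l ≠ j}) := by
    have h := O2_split v w i j hij
    rw [hvw] at h
    have : 1 - s = ∑ l ∈ (Finset.univ.erase i).erase j, v l * w l := by
      rw [hs]; linear_combination h
    rw [this]
    refine Ideal.sum_mem _ fun l hl => Ideal.mul_mem_right _ _ (Ideal.subset_span ⟨l, ?_, rfl⟩)
    simp only [Finset.mem_erase, Finset.mem_univ, and_true] at hl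
    exact ⟨hl.2, hl.1⟩
  set p := v i + (1 - s) * (-(c * w j)) with hp
  set q := v j + (1 - s) * (c * w i) with hq
  have t1 : EEq v (PS_rw2 v i j p q) := by
    have := PS_rw2_congr v i j hij (v i) (v j) p q (by
      rw [hp, add_sub_cancel_left]; exact Ideal.mul_mem_right _ _ hrest) (by
      rw [hq, add_sub_cancel_left]; exact Ideal.mul_mem_right _ _ hrest)
    rwa [PS_rw2_self] at this
  have t2 := O2_comm (PS_rw2 v i j p q) i j k hij hik hjk (w i) (w j) (-(c * w j)) (c * w i)
    (by ring)
  rw [PS_rw2_j _ _ _ hij, PS_rw2_k] at t2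
  have e1 : p * w i + q * w j = s := by rw [hp, hq, hs]; ring
  rw [e1] at t2
  have e2 : p + s * (-(c * w j)) = v i - c * w j := by rw [hp]; ring
  have e3 : q + s * (c * w i) = v j + c * w i := by rw [hq]; ring
  rw [e2, e3] at t2
  have e4 : PS_rw2 (PS_rw2 v i j p q) i j (v i - c * w j) (v j + c * w i)
      = PS_rw2 v i j (v i - c * w j) (v j + c * w i) := by
    ext l
    by_cases hli : l = i
    · rw [hli, PS_rw2_j _ _ _ hij, PS_rw2_j _ _ _ hij]
    · by_cases hlj : l = j
      · rw [hlj, PS_rw2_k, PS_rw2_k]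
      · rw [PS_rw2_l _ _ _ _ hli hlj, PS_rw2_l _ _ _ _ hli hlj, PS_rw2_l _ _ _ _ hli hlj]
  rw [e4] at t2
  exact t1.trans t2

/-- left action of `2 × 2` matrices on the row -/
def O2_actv (i j : ι) (g : Matrix (Fin 2) (Fin 2) A) (v w : ι → A) : ι → A :=
  PS_rw2 v i j (g 0 0 * v i - g 0 1 * w j) (g 0 0 * v j + g 0 1 * w i)

/-- left action of `2 × 2` matrices on the dual row -/
def O2_actw (i j : ι) (g : Matrix (Fin 2) (Fin 2) A) (v w : ι → A) : ι → A :=
  PS_rw2 w i j (g 1 0 * v j + g 1 1 * w i) (-(g 1 0 * v i) + g 1 1 * w j)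

lemma O2_act (i j k : ι) (hij : i ≠ j) (hik : i ≠ k) (hjk : j ≠ k)
    (g : Matrix (Fin 2) (Fin 2) A) (hg : g ∈ E (Fin 2) A) :
    ∀ v w : ι → A, v ⬝ᵥ w = 1 →
      EEq v (O2_actv i j g v w) ∧ (O2_actv i j g v w) ⬝ᵥ (O2_actw i j g v w) = 1 := by
  have hdual : ∀ (g : Matrix (Fin 2) (Fin 2) A), g.det = 1 → ∀ v w : ι → A, v ⬝ᵥ w = 1 →
      (O2_actv i j g v w) ⬝ᵥ (O2_actw i j g v w) = 1 := by
    intro g hg v w hvw
    rw [O2_split _ _ i j hij] at hvw ⊢
    rw [det_fin_two] at hg
    have hsum : ∑ l ∈ (Finset.univ.erase i).erase j, O2_actv i j g v w l * O2_actw i j g v w l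
        = ∑ l ∈ (Finset.univ.erase i).erase j, v l * w l := by
      refine Finset.sum_congr rfl fun l hl => ?_
      simp only [Finset.mem_erase, Finset.mem_univ, and_true] at hl
      rw [O2_actv, O2_actw, PS_rw2_l _ _ _ _ hl.2 hl.1, PS_rw2_l _ _ _ _ hl.2 hl.1]
    rw [hsum, O2_actv, O2_actw, PS_rw2_j _ _ _ hij, PS_rw2_j _ _ _ hij, PS_rw2_k, PS_rw2_k]
    linear_combination hvw + (v i * w i + v j * w j) * hg
  induction hg using Submonoid.closure_induction with
  | mem g hg =>
    obtain ⟨a, b, c, hab, rfl⟩ := hg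
    intro v w hvw
    refine ⟨?_, hdual _ (det_transvection_of_ne a b hab c) v w hvw⟩
    have hab' : (a = 0 ∧ b = 1) ∨ (a = 1 ∧ b = 0) := by
      fin_cases a <;> fin_cases b <;> simp_all
    rcases hab' with ⟨rfl, rfl⟩ | ⟨rfl, rfl⟩
    · have := O2_left v w hvw i j k hij hik hjk c
      rw [O2_actv]
      simpa [transvection, Matrix.one_apply, Matrix.single_apply] using this
    · have : O2_actv i j (transvection 1 0 c) v w = v := by
        rw [O2_actv]
        simp [transvection, Matrix.one_apply, Matrix.single_apply, PS_rw2_self]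
      rw [this]
      exact EEq.refl v
  | one =>
    intro v w hvw
    refine ⟨?_, hdual _ det_one v w hvw⟩
    have : O2_actv i j (1 : Matrix (Fin 2) (Fin 2) A) v w = v := by
      rw [O2_actv]
      simp [PS_rw2_self]
    rw [this]
    exact EEq.refl v
  | mul a b ha' hb' ha hb =>
    intro v w hvw
    obtain ⟨h1, h2⟩ := hb v w hvw
    obtain ⟨h3, h4⟩ := ha _ _ h2
    refine ⟨?_, hdual _ (det_of_mem_E (Submonoid.mul_mem _ ha' hb')) v w hvw⟩
    have : O2_actv i j (a * b) v w = O2_actv i j a (O2_actv i j b v w) (O2_actw i j b v w) := by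
      ext l
      by_cases hli : l = i
      · subst hli
        simp only [O2_actv, O2_actw, PS_rw2_j _ _ _ hij, PS_rw2_k, Matrix.mul_apply,
          Fin.sum_univ_two]
        ring
      · by_cases hlj : l = j
        · subst hlj
          simp only [O2_actv, O2_actw, PS_rw2_j _ _ _ hij, PS_rw2_k, Matrix.mul_apply,
            Fin.sum_univ_two]
          ring
        · simp only [O2_actv, O2_actw, PS_rw2_l _ _ _ _ hli hlj]
    rw [this]
    exact h1.trans h3

lemma O2_wh_mem (a b : A) : SL_wh (0 : Fin 2) 1 a b ∈ E (Fin 2) A := by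
  have h01 : (0 : Fin 2) ≠ 1 := by decide
  unfold SL_wh
  refine Submonoid.mul_mem _ (Submonoid.mul_mem _ (Submonoid.mul_mem _ ?_ ?_) ?_)
    (Submonoid.mul_mem _ (Submonoid.mul_mem _ ?_ ?_) ?_)
  all_goals first | exact transvection_mem_E h01 _ | exact transvection_mem_E h01.symm _

lemma O2_wh00 (a b : A) : SL_wh (0 : Fin 2) 1 a b 0 0 = a * (2 - a * b) := by
  simp [SL_wh, Matrix.mul_apply, Fin.sum_univ_two, transvection, Matrix.one_apply,
    Matrix.single_apply]
  ring

lemma O2_wh01 (a b : A) : SL_wh (0 : Fin 2) 1 a b 0 1 = -(1 - a * b) := by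
  simp [SL_wh, Matrix.mul_apply, Fin.sum_univ_two, transvection, Matrix.one_apply,
    Matrix.single_apply]
  ring

/-- **Squares.** -/
theorem eEq_sq_mul (v : ι → A) (hv : Um v) (i j k : ι) (hij : i ≠ j) (hik : i ≠ k)
    (hjk : j ≠ k) (a b : A) (hab : a * b - 1 ∈ Ideal.span (v '' {l | l ≠ i ∧ l ≠ j})) :
    EEq v (Function.update v i (a ^ 2 * v i)) := by
  obtain ⟨w, hw⟩ := hv
  set I := Ideal.span (v '' {l | l ≠ i ∧ l ≠ j}) with hI
  have t1 := (O2_act i j k hij hik hjk _ (O2_wh_mem a b) v w hw).1
  rw [O2_actv, O2_wh00, O2_wh01] at t1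
  have t2 := PS_rw2_congr v i j hij (a * (2 - a * b) * v i - -(1 - a * b) * w j)
    (a * (2 - a * b) * v j + -(1 - a * b) * w i) (a * v i) (a * v j) (by
      have : a * v i - (a * (2 - a * b) * v i - -(1 - a * b) * w j)
        = (a * b - 1) * (a * v i + w j) := by ring
      rw [this]; exact Ideal.mul_mem_right _ _ hab) (by
      have : a * v j - (a * (2 - a * b) * v j + -(1 - a * b) * w i)
        = (a * b - 1) * (a * v j - w i) := by ring
      rw [this]; exact Ideal.mul_mem_right _ _ hab)
  have hφ : Ideal.Quotient.mk I a * Ideal.Quotient.mk I b = 1 := by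
    rw [← map_mul, ← map_one (Ideal.Quotient.mk I), Ideal.Quotient.eq]
    exact hab
  have t3 := PS_embed v i j hij I hI (SL_wh (0 : Fin 2) 1 (Ideal.Quotient.mk I a)
    (Ideal.Quotient.mk I b)) (O2_wh_mem _ _) (a * v i) (a * v j) (a ^ 2 * v i) (v j) (by
      rw [SL_wh_eq 0 1 (by decide) _ _ hφ]
      ext l
      fin_cases l
      · simp [vecMul_diagonal]; ring
      · simp [vecMul_diagonal]
        linear_combination (Ideal.Quotient.mk I (v j)) * hφ)
  have e1 : PS_rw2 v i j (a ^ 2 * v i) (v j) = Function.update v i (a ^ 2 * v i) := by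
    ext l
    by_cases hli : l = i
    · rw [hli, PS_rw2_j _ _ _ hij, Function.update_self]
    · rw [Function.update_of_ne hli]
      by_cases hlj : l = j
      · rw [hlj, PS_rw2_k]
      · rw [PS_rw2_l _ _ _ _ hli hlj]
  rw [← e1]
  exact (t1.trans t2).trans t3

/-- Squares, `a` a unit modulo one other entry. -/
theorem eEq_sq_mul_of_entry (v : ι → A) (hv : Um v) (h3 : 3 ≤ Fintype.card ι) (i k : ι)
    (hik : i ≠ k) (a b c : A) (hab : a * b = 1 + v k * c) :
    EEq v (Function.update v i (a ^ 2 * v i)) := by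
  obtain ⟨j, hj1, hj2⟩ := PS_third h3 i k
  refine eEq_sq_mul v hv i j k hj1 hik hj2.symm a b ?_
  have : a * b - 1 = v k * c := by rw [hab]; ring
  rw [this]
  exact Ideal.mul_mem_right _ _ (Ideal.subset_span ⟨k, ⟨hik.symm, hj2⟩, rfl⟩)

end

end GB
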