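import Pool.Agent.helper89.GB.D5
import Pool.Agent.helper65.GB.Elem

/-!
# Project gb: D2, D3 and D6 (Theorem H for `D_0` local).
-/

set_option linter.unusedSectionVars false

namespace GB

open Matrix

namespace Grd

variable {D : Type*} [CommRing D] (G : Grd D)

theorem D6_mem_MM {x : D} (h : ∀ j, G.pr j x ∈ G.MM) : x ∈ G.MM := by
  obtain ⟨n, hn⟩ := G.exists_bound x
  rw [G.eq_sum x _ hn]
  exact G.MM.sum_mem fun j _ => h j

/-- all components of degree at least `n` lie in `MM` -/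
def D6_lt (x : D) (n : ℕ) : Prop := ∀ j : ℤ, (n : ℤ) ≤ j → G.pr j x ∈ G.MM

theorem D6_lt_exists (x : D) : ∃ n, G.D6_lt x n := by
  obtain ⟨n, hn⟩ := G.exists_Le x
  exact ⟨n + 1, fun j hj => by rw [hn j (by push_cast at hj; omega)]; exact G.MM.zero_mem⟩

open Classical in
/-- one plus the largest degree of a component outside `MM` -/
noncomputable def D6_dg (x : D) : ℕ := Nat.find (G.D6_lt_exists x)

theorem D6_dg_spec (x : D) : G.D6_lt x (G.D6_dg x) := by
  classical
  exact Nat.find_spec (G.D6_lt_exists x)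

theorem D6_dg_le {x : D} {n : ℕ} (h : G.D6_lt x n) : G.D6_dg x ≤ n := by
  classical
  exact Nat.find_min' _ h

theorem D6_dg_zero {x : D} (hx : x ∈ G.DGe) (h : G.D6_dg x = 0) : x ∈ G.MM := by
  refine G.D6_mem_MM fun j => ?_
  by_cases hj : j < 0
  · rw [hx j hj]; exact G.MM.zero_mem
  · exact G.D6_dg_spec x j (by rw [h]; push_cast; omega)

theorem D6_top {x : D} {n : ℕ} (h : G.D6_dg x = n + 1) : G.pr n x ∉ G.MM := by
  intro hm
  have h2 : G.D6_lt x n := fun j hj => by
    rcases eq_or_lt_of_le hj with h1 | h1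
    · rw [← h1]; exact hm
    · exact G.D6_dg_spec x j (by rw [h]; push_cast; omega)
  have := G.D6_dg_le h2
  omega

/-- Euclidean step -/
theorem D6_euclid {x y : D} {m n : ℕ} (hxm : G.D6_dg x = m + 1) (hyn : G.D6_dg y = n + 1)
    (hnm : n ≤ m) : ∃ q ∈ G.DGe, G.D6_dg (x - q * y) < G.D6_dg x := by
  have hy : IsUnit (G.pr n y) := G.isUnit_of_notMem_MM (G.pr_mem _ _) (G.D6_top hyn)
  obtain ⟨z, hz, hyz⟩ := G.exists_inv_of_isUnit (G.pr_mem _ _) hy
  have hq : G.pr m x * z ∈ G.A (m - n) := by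
    have := G.mul_mem (G.pr_mem m x) hz
    rwa [← sub_eq_add_neg] at this
  refine ⟨G.pr m x * z, G.A_le_DGe (by omega) hq, ?_⟩
  have hlt : G.D6_lt (x - G.pr m x * z * y) m := by
    intro j hj
    rw [map_sub, G.pr_mul_of_mem hq]
    rcases eq_or_lt_of_le hj with h1 | h1
    · have e1 : j - (m - n) = n := by omega
      rw [e1, ← h1, mul_assoc, mul_comm z, hyz, mul_one, sub_self]
      exact G.MM.zero_mem
    · refine G.MM.sub_mem (G.D6_dg_spec x j (by rw [hxm]; push_cast; omega)) ?_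
      exact G.MM.mul_mem_left _ (G.D6_dg_spec y _ (by rw [hyn]; push_cast; omega))
  have := G.D6_dg_le hlt
  omega

section rows

variable {ι : Type*} [Fintype ι] [DecidableEq ι]

theorem D6_reduce [Nonempty ι] : ∀ (N : ℕ) (v : ι → G.DGe),
    ∑ l, G.D6_dg (v l : D) = N → ∃ w, EEq v w ∧ ∃ i, ∀ j, j ≠ i → (w j : D) ∈ G.MM := by
  intro N
  induction N using Nat.strong_induction_on with
  | _ N ih =>
  intro v hN
  by_cases h : ∃ i j, i ≠ j ∧ (v i : D) ∉ G.MM ∧ (v j : D) ∉ G.MM
  · obtain ⟨i, j, hij, hi, hj, hle⟩ : ∃ i j, i ≠ j ∧ (v i : D) ∉ G.MM ∧ (v j : D) ∉ G.MM ∧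
        G.D6_dg (v j : D) ≤ G.D6_dg (v i : D) := by
      obtain ⟨i, j, hij, hi, hj⟩ := h
      rcases le_total (G.D6_dg (v j : D)) (G.D6_dg (v i : D)) with h1 | h1
      · exact ⟨i, j, hij, hi, hj, h1⟩
      · exact ⟨j, i, hij.symm, hj, hi, h1⟩
    obtain ⟨m, hm⟩ : ∃ m, G.D6_dg (v i : D) = m + 1 :=
      Nat.exists_eq_succ_of_ne_zero fun h0 => hi (G.D6_dg_zero (v i).2 h0)
    obtain ⟨n, hn⟩ : ∃ n, G.D6_dg (v j : D) = n + 1 :=
      Nat.exists_eq_succ_of_ne_zero fun h0 => hj (G.D6_dg_zero (v j).2 h0)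
    obtain ⟨q, hq, hlt⟩ := G.D6_euclid hm hn (by omega)
    set v' := Function.update v i (v i + v j * (-⟨q, hq⟩)) with hv'
    have e1 : EEq v v' := EEq_update hij.symm v _
    have e2 : (v' i : D) = (v i : D) - q * (v j : D) := by
      rw [hv', Function.update_self]
      push_cast
      ring
    have e3 : ∀ l, l ≠ i → v' l = v l := fun l hl => by rw [hv', Function.update_of_ne hl]
    have hsum : ∑ l, G.D6_dg (v' l : D) < N := by
      rw [← hN]
      refine Finset.sum_lt_sum (fun l _ => ?_) ⟨i, Finset.mem_univ i, ?_⟩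
      · by_cases hl : l = i
        · subst hl; rw [e2]; exact hlt.le
        · rw [e3 l hl]
      · rw [e2]; exact hlt
    obtain ⟨w, hw, hw'⟩ := ih _ hsum v' rfl
    exact ⟨w, e1.trans hw, hw'⟩
  · push Not at h
    refine ⟨v, EEq.refl v, ?_⟩
    by_cases h2 : ∃ i, (v i : D) ∉ G.MM
    · obtain ⟨i, hi⟩ := h2
      refine ⟨i, fun j hj => h i j (Ne.symm hj) hi⟩
    · push Not at h2
      exact ⟨Classical.arbitrary ι, fun j _ => h2 j⟩

theorem D6_normal [Nontrivial ι] (hloc : G.Loc) (v : ι → G.DGe) (hv : Um v) :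
    ∃ w k, EEq v w ∧ ∀ j, (w j : D) - (Pi.single k 1 : ι → D) j ∈ G.MM := by
  obtain ⟨w, hw, i, hi⟩ := G.D6_reduce _ v rfl
  obtain ⟨u, hu⟩ := hw.um hv
  -- the entry `w i` is a unit of degree zero modulo `MM`
  have h1 : 1 - (w i : D) * (u i : D) ∈ G.MM := by
    have h2 : (1 : D) = ∑ l, (w l : D) * (u l : D) := by
      have := congrArg (fun x : G.DGe => (x : D)) hu
      simp only [dotProduct, AddSubmonoidClass.coe_finsetSum, MulMemClass.coe_mul,
        OneMemClass.coe_one] at this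
      exact this.symm
    rw [h2, ← Finset.add_sum_erase _ _ (Finset.mem_univ i), add_sub_cancel_left]
    refine G.MM.sum_mem fun l hl => G.MM.mul_mem_right _ (hi l (Finset.ne_of_mem_erase hl))
  have hne : (1 : D) ∉ G.MM := fun h => G.MM_ne_top hloc ((Ideal.eq_top_iff_one _).2 h)
  have hwi : (w i : D) ∉ G.MM := fun h => hne (by
    have := G.MM.add_mem h1 (G.MM.mul_mem_right (u i : D) h)
    rwa [sub_add_cancel] at this)
  have hui : (u i : D) ∉ G.MM := fun h => hne (by
    have := G.MM.add_mem h1 (G.MM.mul_mem_left (w i : D) h)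
    rwa [sub_add_cancel] at this)
  obtain ⟨m, hm⟩ : ∃ m, G.D6_dg (w i : D) = m + 1 :=
    Nat.exists_eq_succ_of_ne_zero fun h0 => hwi (G.D6_dg_zero (w i).2 h0)
  obtain ⟨n, hn⟩ : ∃ n, G.D6_dg (u i : D) = n + 1 :=
    Nat.exists_eq_succ_of_ne_zero fun h0 => hui (G.D6_dg_zero (u i).2 h0)
  have hm0 : m = 0 := by
    by_contra hm0
    have h3 : G.pr (m + n) ((w i : D) * (u i : D)) ∈ G.MM := by
      have h4 := G.pr_mem_MM h1 (m + n)
      rw [map_sub, G.pr_ne G.one_mem (by omega), zero_sub] at h4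
      exact (neg_mem_iff.1 h4)
    obtain ⟨b, hb⟩ := G.exists_bound (w i : D)
    rw [G.pr_mul _ _ _ (insert (m : ℤ) (Finset.Icc (-(b : ℤ)) b))
      (fun j hj => hb j (fun h => hj (Finset.mem_insert_of_mem h))),
      ← Finset.add_sum_erase _ _ (Finset.mem_insert_self _ _)] at h3
    have h5 : ∑ k ∈ (insert (m : ℤ) (Finset.Icc (-(b : ℤ)) b)).erase m,
        G.pr k (w i : D) * G.pr (m + n - k) (u i : D) ∈ G.MM := by
      refine G.MM.sum_mem fun k hk => ?_
      rcases lt_or_gt_of_ne (Finset.ne_of_mem_erase hk) with h6 | h6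
      · exact G.MM.mul_mem_left _ (G.D6_dg_spec _ _ (by rw [hn]; push_cast; omega))
      · exact G.MM.mul_mem_right _ (G.D6_dg_spec _ _ (by rw [hm]; push_cast; omega))
    have h7 := G.MM.sub_mem h3 h5
    rw [add_sub_cancel_right, add_sub_cancel_left] at h7
    have u1 : IsUnit (G.pr m (w i : D)) := G.isUnit_of_notMem_MM (G.pr_mem _ _) (G.D6_top hm)
    have u2 : IsUnit (G.pr n (u i : D)) := G.isUnit_of_notMem_MM (G.pr_mem _ _) (G.D6_top hn)
    exact G.MM_ne_top hloc (Ideal.eq_top_of_isUnit_mem _ h7 (u1.mul u2))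
  subst hm0
  have hunit : IsUnit (G.pr 0 (w i : D)) := by
    have := G.D6_top hm
    exact G.isUnit_of_notMem_MM (G.pr_mem _ _) this
  obtain ⟨z, hz, hwz⟩ := G.exists_inv_of_isUnit (G.pr_mem _ _) hunit
  rw [neg_zero] at hz
  have hwi0 : (w i : D) - G.pr 0 (w i : D) ∈ G.MM := by
    refine G.D6_mem_MM fun j => ?_
    rw [map_sub, G.pr_pr]
    rcases lt_trichotomy j 0 with h | h | h
    · rw [if_neg (by omega), sub_zero, (w i).2 j h]; exact G.MM.zero_mem
    · rw [if_pos h, h, sub_self]; exact G.MM.zero_mem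
    · rw [if_neg (by omega), sub_zero]
      exact G.D6_dg_spec _ _ (by rw [hm]; push_cast; omega)
  obtain ⟨k, hk⟩ := exists_ne i
  set zz : G.DGe := ⟨z, G.A_le_DGe le_rfl hz⟩ with hzz
  set xx : G.DGe := ⟨G.pr 0 (w i : D), G.A_le_DGe le_rfl (G.pr_mem _ _)⟩ with hxx
  set w1 := Function.update w k (w k + w i * zz) with hw1
  set w2 := Function.update w1 i (w1 i + w1 k * (-xx)) with hw2
  have t1 : EEq w w1 := EEq_update hk.symm w _
  have t2 : EEq w1 w2 := EEq_update hk w1 _
  refine ⟨w2, k, (hw.trans t1).trans t2, fun j => ?_⟩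
  have e1k : (w1 k : D) - 1 ∈ G.MM := by
    have : (w1 k : D) - 1 = (w k : D) + ((w i : D) - G.pr 0 (w i : D)) * z := by
      rw [hw1, Function.update_self]
      push_cast
      linear_combination hwz
    rw [this]
    exact G.MM.add_mem (hi k hk) (G.MM.mul_mem_right _ hwi0)
  have e1i : w1 i = w i := by rw [hw1, Function.update_of_ne hk.symm]
  by_cases hjk : j = k
  · subst hjk
    rw [hw2, Function.update_of_ne hk, Pi.single_eq_same]
    exact e1k
  · rw [Pi.single_eq_of_ne hjk, sub_zero]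
    by_cases hji : j = i
    · subst hji
      have : (w2 j : D) = ((w j : D) - G.pr 0 (w j : D)) -
          ((w1 k : D) - 1) * G.pr 0 (w j : D) := by
        rw [hw2, Function.update_self, e1i]
        push_cast
        ring
      rw [this]
      exact G.MM.sub_mem hwi0 (G.MM.mul_mem_right _ e1k)
    · rw [hw2, Function.update_of_ne hji, hw1, Function.update_of_ne hjk]
      exact hi j hji

end rows

section loc

variable (L : Type*) [CommRing L] [Algebra D L] [IsLocalization G.Sigma L]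

theorem D6_ME_ne_top (hloc : G.Loc) : G.MM.map (algebraMap D L) ≠ ⊤ := by
  rw [IsLocalization.map_algebraMap_ne_top_iff_disjoint G.Sigma L]
  rw [Set.disjoint_left]
  intro s hs hm
  have h1 := G.pr_mem_MM hm 0
  have h2 : G.pr 0 s = 1 := by
    have : s = 1 + (s - 1) := by ring
    rw [this, map_add, G.pr_same G.one_mem, hs 0 (by norm_num), add_zero]
  rw [h2] at h1
  exact G.MM_ne_top hloc ((Ideal.eq_top_iff_one _).2 h1)

/-- units lift: every element of `E` outside `MM E` is congruent to a unit -/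
theorem D6_unit_lift (x : L) (hx : x ∉ G.MM.map (algebraMap D L)) :
    ∃ u : L, IsUnit u ∧ x - u ∈ G.MM.map (algebraMap D L) := by
  classical
  obtain ⟨⟨y, s⟩, hys⟩ := IsLocalization.surj G.Sigma x
  simp only at hys
  have hs : IsUnit (algebraMap D L s) := IsLocalization.map_units L s
  obtain ⟨t, ht⟩ := hs.exists_right_inv
  have hx' : x = algebraMap D L y * t := by
    rw [← hys, mul_assoc, ht, mul_one]
  obtain ⟨n, hn⟩ := G.exists_bound y
  set S := (Finset.Icc (-(n : ℤ)) n).filter (fun j => G.pr j y ∉ G.MM) with hS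
  set y' := ∑ j ∈ S, G.pr j y with hy'
  have hyy : y - y' ∈ G.MM := by
    have h1 : y = ∑ j ∈ Finset.Icc (-(n : ℤ)) n, G.pr j y := G.eq_sum y _ hn
    have h2 := Finset.sum_filter_add_sum_filter_not (Finset.Icc (-(n : ℤ)) n)
      (fun j => G.pr j y ∉ G.MM) (fun j => G.pr j y)
    have h3 : y - y' = ∑ j ∈ (Finset.Icc (-(n : ℤ)) n).filter (fun j => ¬ G.pr j y ∉ G.MM),
        G.pr j y := by
      rw [hy', hS]
      linear_combination h1 - h2
    rw [h3]
    refine G.MM.sum_mem fun j hj => ?_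
    rw [Finset.mem_filter, not_not] at hj
    exact hj.2
  have hSne : S.Nonempty := by
    rw [Finset.nonempty_iff_ne_empty]
    intro h0
    have : y' = 0 := by rw [hy', h0, Finset.sum_empty]
    rw [this, sub_zero] at hyy
    exact hx (by rw [hx']; exact Ideal.mul_mem_right _ _ (Ideal.mem_map_of_mem _ hyy))
  set J := S.max' hSne with hJ
  have hJS : J ∈ S := S.max'_mem hSne
  have hJm : G.pr J y ∉ G.MM := (Finset.mem_filter.1 hJS).2
  have hJu : IsUnit (G.pr J y) := G.isUnit_of_notMem_MM (G.pr_mem _ _) hJm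
  obtain ⟨z, hz, hyz⟩ := G.exists_inv_of_isUnit (G.pr_mem _ _) hJu
  have hσ : y' * z ∈ G.Sigma := by
    rw [G.mem_Sigma]
    have : y' * z - 1 = ∑ j ∈ S.erase J, G.pr j y * z := by
      rw [hy', Finset.sum_mul, ← Finset.add_sum_erase _ _ hJS, hyz, add_sub_cancel_left]
    rw [this]
    refine (G.Le (-1)).sum_mem fun j hj => ?_
    have h1 : j < J := lt_of_le_of_ne (S.le_max' j (Finset.mem_of_mem_erase hj))
      (Finset.ne_of_mem_erase hj)
    exact G.A_le_Le (by omega : j + -J ≤ -1) (G.mul_mem (G.pr_mem j y) hz)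
  have hu1 : IsUnit (algebraMap D L y') := by
    have h1 : y' = G.pr J y * (y' * z) := by
      linear_combination (-y') * hyz
    rw [h1, map_mul]
    exact (hJu.map _).mul (IsLocalization.map_units L (⟨y' * z, hσ⟩ : G.Sigma))
  refine ⟨algebraMap D L y' * t, hu1.mul (IsUnit.of_mul_eq_one _ (by rw [mul_comm]; exact ht)), ?_⟩
  rw [hx', ← sub_mul, ← map_sub]
  exact Ideal.mul_mem_right _ _ (Ideal.mem_map_of_mem _ hyy)

theorem D6_ME_maximal (hloc : G.Loc) : (G.MM.map (algebraMap D L)).IsMaximal := by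
  rw [Ideal.isMaximal_iff]
  refine ⟨fun h => G.D6_ME_ne_top L hloc ((Ideal.eq_top_iff_one _).2 h), ?_⟩
  intro J x hJ hx hxJ
  obtain ⟨u, hu, hxu⟩ := G.D6_unit_lift L x hx
  have h1 : u ∈ J := by
    have := J.sub_mem hxJ (hJ hxu)
    rwa [sub_sub_cancel] at this
  rw [Ideal.eq_top_of_isUnit_mem J h1 hu]
  trivial

end loc

section lift

variable {R K : Type*} [CommRing R] [Field K] (φ : R →+* K)
  (hφ : ∀ x : K, x ≠ 0 → ∃ u : R, IsUnit u ∧ φ u = x)

include hφ

theorem D6_surj (x : K) : ∃ u, φ u = x := by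
  by_cases h : x = 0
  · exact ⟨0, by rw [h, map_zero]⟩
  · obtain ⟨u, _, hu⟩ := hφ x h
    exact ⟨u, hu⟩

theorem D6_GL_lift {m : Type*} [Fintype m] [DecidableEq m] (M : Matrix m m K) (hM : M.det ≠ 0) :
    ∃ N : Matrix m m R, IsUnit N.det ∧ N.map φ = M := by
  refine Matrix.diagonal_transvection_induction_of_det_ne_zero
    (fun M => ∃ N : Matrix m m R, IsUnit N.det ∧ N.map φ = M) M hM ?_ ?_ ?_
  · intro d hd
    rw [det_diagonal, Finset.prod_ne_zero_iff] at hd
    choose u hu hu' using fun i => hφ (d i) (hd i (Finset.mem_univ i))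
    refine ⟨diagonal u, ?_, ?_⟩
    · rw [det_diagonal]
      exact IsUnit.prod_univ_iff.2 hu
    · ext i j
      by_cases hij : i = j
      · subst hij; simp [hu']
      · simp [diagonal_apply_ne _ hij]
  · intro t
    obtain ⟨c, hc⟩ := D6_surj φ hφ t.c
    refine ⟨transvection t.i t.j c, ?_, ?_⟩
    · rw [det_transvection_of_ne _ _ t.hij]; exact isUnit_one
    · rw [E_map_transvection, hc]; rfl
  · rintro A B _ _ ⟨N, hN, rfl⟩ ⟨N', hN', rfl⟩
    exact ⟨N * N', by rw [det_mul]; exact hN.mul hN', Matrix.map_mul⟩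

theorem D6_block_lift {ι : Type*} [Fintype ι] [DecidableEq ι] (k : ι) (M : Matrix ι ι K)
    (hM : M.det ≠ 0) (hrow : M k = Pi.single k 1) :
    ∃ N : Matrix ι ι R, IsUnit N.det ∧ N k = Pi.single k 1 ∧ N.map φ = M := by
  classical
  let e := Equiv.sumCompl (fun i : ι => i = k)
  set M' := M.submatrix e e with hM'
  have h12 : M'.toBlocks₁₂ = 0 := by
    ext i j
    have hi : (i : ι) = k := i.2
    have hj : (j : ι) ≠ k := j.2
    simp [hM', toBlocks₁₂, e, hi, hrow, Pi.single_eq_of_ne hj]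
  have h11 : M'.toBlocks₁₁ = 1 := by
    ext i j
    have hi : (i : ι) = k := i.2
    have hj : (j : ι) = k := j.2
    have hij : i = j := Subtype.ext (hi.trans hj.symm)
    subst hij
    simp [hM', toBlocks₁₁, e, hi, hrow]
  have hb : M' = fromBlocks 1 0 M'.toBlocks₂₁ M'.toBlocks₂₂ := by
    rw [← h11, ← h12, fromBlocks_toBlocks]
  have hdet : M'.toBlocks₂₂.det ≠ 0 := by
    have h1 : M'.det ≠ 0 := by rw [hM', det_submatrix_equiv_self]; exact hM
    rw [hb, det_fromBlocks_zero₁₂, det_one, one_mul] at h1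
    exact h1
  obtain ⟨G', hG, hG'⟩ := D6_GL_lift φ hφ _ hdet
  choose c hc using fun (i : {a // ¬ a = k}) (j : {a // a = k}) =>
    D6_surj φ hφ (M'.toBlocks₂₁ i j)
  set N' : Matrix ({a // a = k} ⊕ {a // ¬ a = k}) ({a // a = k} ⊕ {a // ¬ a = k}) R :=
    fromBlocks 1 0 (Matrix.of c) G' with hN'
  have hN'm : N'.map φ = M' := by
    rw [hb, hN', fromBlocks_map]
    congr 1
    · exact Matrix.map_one _ (map_zero φ) (map_one φ)
    · ext i j; simp
    · ext i j; simp [hc]
  refine ⟨N'.submatrix e.symm e.symm, ?_, ?_, ?_⟩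
  · rw [det_submatrix_equiv_self, hN', det_fromBlocks_zero₁₂, det_one, one_mul]
    exact hG
  · ext j
    rw [submatrix_apply]
    have hk : e.symm k = Sum.inl ⟨k, rfl⟩ := by
      rw [Equiv.symm_apply_eq]; rfl
    rw [hk]
    by_cases hj : j = k
    · subst hj
      rw [hk, hN', fromBlocks_apply₁₁, one_apply_eq, Pi.single_eq_same]
    · have hj' : e.symm j = Sum.inr ⟨j, hj⟩ := by
        rw [Equiv.symm_apply_eq]; rfl
      rw [hj', hN', fromBlocks_apply₁₂, Pi.single_eq_of_ne hj]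
      rfl
  · have : (N'.submatrix e.symm e.symm).map φ = (N'.map φ).submatrix e.symm e.symm := rfl
    rw [this, hN'm, hM', submatrix_submatrix]
    simp

end lift

universe u w

/-- **D6**: Theorem H for `D_0` local -/
theorem D6 (h5 : D5_stmt.{u, w}) : D6_stmt.{u, w} := by
  intro D _ G hloc ι _ _ _ v hv hc
  classical
  obtain ⟨w, k, hvw, hwk⟩ := G.D6_normal hloc v hv
  set L := Localization G.Sigma with hL
  set a : D →+* L := algebraMap D L with ha
  set f : G.DGe →+* L := a.comp G.DGe.subtype with hf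
  have hcw : Comp (fun j => f (w j)) := (hvw.map f).comp hc
  obtain ⟨g, hg, hgw⟩ := (comp_iff_gEq_single k).1 hcw
  rw [Matrix.single_one_vecMul] at hgw
  set ME := G.MM.map a with hME
  have : ME.IsMaximal := G.D6_ME_maximal L hloc
  let _ : Field (L ⧸ ME) := Ideal.Quotient.field ME
  set φ : L →+* L ⧸ ME := Ideal.Quotient.mk ME with hφ
  have hφu : ∀ x : L ⧸ ME, x ≠ 0 → ∃ u : L, IsUnit u ∧ φ u = x := by
    intro x hx
    obtain ⟨x, rfl⟩ := Ideal.Quotient.mk_surjective x
    have hx' : x ∉ ME := fun h => hx (Ideal.Quotient.eq_zero_iff_mem.2 h)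
    obtain ⟨u, hu, hxu⟩ := G.D6_unit_lift L x hx'
    exact ⟨u, hu, (Ideal.Quotient.eq.2 hxu).symm⟩
  have hgbar : IsUnit (g.map φ).det := by
    have : (g.map φ).det = φ g.det := by rw [RingHom.map_det]; rfl
    rw [this]; exact hg.map φ
  have hrow : (g.map φ) k = Pi.single k 1 := by
    ext j
    have h1 : g k j = f (w j) := (congrFun hgw j).symm
    rw [Matrix.map_apply, h1]
    have h2 : a ((w j : D) - (Pi.single k 1 : ι → D) j) ∈ ME := Ideal.mem_map_of_mem _ (hwk j)
    rw [map_sub] at h2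
    have h3 := (Ideal.Quotient.eq.2 h2)
    change φ (a (w j)) = _
    rw [hφ, h3]
    by_cases hj : j = k
    · subst hj; simp
    · simp [hj]
  have hinv : ((g.map φ)⁻¹) k = Pi.single k 1 := by
    have h1 : Pi.single k 1 ᵥ* (g.map φ) = Pi.single k 1 := by
      rw [Matrix.single_one_vecMul]; exact hrow
    have h2 := congrArg (fun x => x ᵥ* (g.map φ)⁻¹) h1
    simp only [Matrix.vecMul_vecMul, Matrix.mul_nonsing_inv _ hgbar, Matrix.vecMul_one] at h2
    rw [Matrix.single_one_vecMul] at h2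
    exact h2.symm
  obtain ⟨h, hh, hhk, hhm⟩ := D6_block_lift φ hφu k ((g.map φ)⁻¹)
    (by rw [Matrix.det_nonsing_inv]; exact (hgbar.ringInverse).ne_zero) hinv
  set g1 := h * g with hg1
  have hg1u : IsUnit g1.det := by rw [hg1, det_mul]; exact hh.mul hg
  have hg1k : ∀ j, g1 k j = f (w j) := by
    intro j
    have h1 : g1 k = (h k) ᵥ* g := by rw [hg1]; exact Matrix.mul_apply_eq_vecMul h g k
    rw [h1, hhk, Matrix.single_one_vecMul]
    exact (congrFun hgw j).symm
  have hg1m : g1.map φ = 1 := by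
    rw [hg1, Matrix.map_mul, hhm, Matrix.nonsing_inv_mul _ hgbar]
  have hg1I : ∀ i j, (g1 - 1) i j ∈ ME := by
    intro i j
    have h1 : φ (g1 i j) = φ ((1 : Matrix ι ι L) i j) := by
      have := congrFun (congrFun hg1m i) j
      rw [Matrix.map_apply] at this
      rw [this]
      by_cases hij : i = j
      · subst hij; simp
      · simp [Matrix.one_apply_ne hij]
    rw [Matrix.sub_apply]
    exact Ideal.Quotient.eq.1 h1
  obtain ⟨y, hy, hyA⟩ := h5 G hloc g1 g1⁻¹ (Matrix.mul_nonsing_inv _ hg1u) hg1I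
  have hz := hyA k w (fun j => (hg1k j).symm)
  set z := w ᵥ* y with hzd
  have hwz : GEq w z := ⟨y, hy, rfl⟩
  have hvz : GEq v z := hvw.gEq.trans hwz
  obtain ⟨u, hu⟩ := hvz.um hv
  -- some entry of `z` is a unit
  have hex : ∃ j, ∃ c ∈ G.A 0, (z j : D) * c = 1 := by
    by_contra hcon
    push Not at hcon
    have h1 : (1 : D) = ∑ l, (z l : D) * G.pr 0 (u l : D) := by
      have h2 := congrArg (fun x : G.DGe => G.pr 0 (x : D)) hu
      simp only [dotProduct, AddSubmonoidClass.coe_finsetSum, MulMemClass.coe_mul,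
        OneMemClass.coe_one, G.pr_same G.one_mem, map_sum] at h2
      rw [← h2]
      refine Finset.sum_congr rfl fun l _ => ?_
      rw [G.pr_mul_of_mem (hz l), sub_zero]
    have key : ∀ s : Finset ι, ¬ ∃ c ∈ G.A 0, (∑ l ∈ s, (z l : D) * G.pr 0 (u l : D)) * c = 1 := by
      intro s
      induction s using Finset.induction_on with
      | empty =>
        rintro ⟨c, _, h⟩
        rw [Finset.sum_empty, zero_mul] at h
        exact hloc.1 h.symm
      | insert b s hb ih =>
        rw [Finset.sum_insert hb]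
        have h0 : ∀ {a b : D}, a ∈ G.A 0 → b ∈ G.A 0 → a * b ∈ G.A 0 := fun ha hb => by
          have := G.mul_mem ha hb
          rwa [add_zero] at this
        refine G.nonunit_add hloc (h0 (hz b) (G.pr_mem 0 _)) ?_ ih
        rintro ⟨c, hc, h⟩
        exact hcon b _ (h0 (G.pr_mem 0 (u b : D)) hc) (by rw [← mul_assoc]; exact h)
    exact key Finset.univ ⟨1, G.one_mem, by rw [← h1, mul_one]⟩
  obtain ⟨j, c, hcA, hjc⟩ := hex
  have hunit : IsUnit (z j) :=
    IsUnit.of_mul_eq_one ⟨c, G.A_le_DGe le_rfl hcA⟩ (Subtype.ext (by simpa using hjc))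
  obtain ⟨l, hl⟩ := exists_ne j
  have hzc : Comp z := (comp_iff_gEq_single j).2
    (EEq_single_of_isUnit j j l hl.symm z hunit).gEq
  exact hvz.symm.comp hzc

theorem D6_all : D6_stmt.{u, w} := D6 D5.{u, w}

end Grd

end GB
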