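import Pool.Agent.helper44.GB.SL

/-!
Power shifting: for rows of length at least three over a commutative ring, the power
operation `v ↦ (v i ^ m, other entries)` is well defined on elementary orbits, hence
`(x ^ m, y, z, ...) ~ (x, y ^ m, z, ...)`.
-/

namespace GB

set_option linter.unusedSimpArgs false
set_option linter.unusedSectionVars false

open Matrix

section basic

variable {A ι : Type*} [CommRing A] [Fintype ι] [DecidableEq ι]

lemma PS_vecMul_transvection (v : ι → A) (i j : ι) (c : A) :
    v ᵥ* transvection i j c = Function.update v j (v j + v i * c) := by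
  ext k
  rw [transvection, vecMul_add, vecMul_one, Pi.add_apply]
  have h : (v ᵥ* single i j c) k = if j = k then v i * c else 0 := by
    rw [vecMul, dotProduct, Finset.sum_eq_single i]
    · rw [Matrix.single_apply]; by_cases hjk : j = k <;> simp [hjk]
    · intro b _ hb
      rw [Matrix.single_apply]; simp [Ne.symm hb]
    · simp
  rw [h]
  by_cases hk : k = j
  · subst hk; simp
  · simp [hk, Ne.symm hk, Function.update_of_ne hk]

lemma EEq.add (v : ι → A) (i j : ι) (h : i ≠ j) (c : A) :
    EEq v (Function.update v j (v j + v i * c)) :=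
  ⟨transvection i j c, transvection_mem_E h c, (PS_vecMul_transvection v i j c).symm⟩

/-- add to coordinate `j` an element of the ideal generated by a set of other coordinates -/
lemma EEq.add_span (v : ι → A) (j : ι) (S : Set ι) (hS : j ∉ S) (c : A)
    (hc : c ∈ Ideal.span (v '' S)) : EEq v (Function.update v j (v j + c)) := by
  have key : ∀ c ∈ Ideal.span (v '' S), ∀ r x : A,
      EEq (Function.update v j x) (Function.update v j (x + c * r)) := by
    intro c hc
    induction hc using Submodule.span_induction with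
    | mem c hc =>
      obtain ⟨i, hi, rfl⟩ := hc
      intro r x
      have hij : i ≠ j := fun h => hS (h ▸ hi)
      have := EEq.add (Function.update v j x) i j hij r
      simpa [Function.update_of_ne hij] using this
    | zero => intro r x; simpa using EEq.refl _
    | add a b _ _ ha hb =>
      intro r x
      have := (ha r x).trans (hb r (x + a * r))
      rwa [show x + a * r + b * r = x + (a + b) * r by ring] at this
    | smul t a ha' ha =>
      intro r x
      have := ha (t * r) x
      rwa [show a * (t * r) = (t • a) * r by rw [smul_eq_mul]; ring] at this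
  have := key c hc 1 (v j)
  rwa [Function.update_eq_self, mul_one] at this

end basic

section two

variable {B : Type*} [CommRing B]

lemma PS_mem_elem_two (τ : Matrix (Fin 2) (Fin 2) B) (hdet : τ.det = 1) (p' : B)
    (hp : τ 0 0 * p' = 1) : τ ∈ E (Fin 2) B := by
  have h01 : (0 : Fin 2) ≠ 1 := by decide
  have hw : SL_wh (0 : Fin 2) 1 (τ 0 0) p' ∈ E (Fin 2) B := by
    unfold SL_wh
    refine Submonoid.mul_mem _ (Submonoid.mul_mem _ (Submonoid.mul_mem _ ?_ ?_) ?_)
      (Submonoid.mul_mem _ (Submonoid.mul_mem _ ?_ ?_) ?_)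
    all_goals first | exact transvection_mem_E h01 _ | exact transvection_mem_E h01.symm _
  have key : τ = transvection 1 0 (τ 1 0 * p') * SL_wh (0 : Fin 2) 1 (τ 0 0) p' *
      transvection 0 1 (p' * τ 0 1) := by
    rw [SL_wh_eq 0 1 h01 _ _ hp]
    rw [det_fin_two] at hdet
    ext i j
    fin_cases i <;> fin_cases j <;>
      simp [Matrix.mul_apply, Fin.sum_univ_two, transvection, Matrix.one_apply, Matrix.single_apply,
        diagonal_apply]
    · linear_combination (-τ 0 1) * hp
    · linear_combination (-τ 1 0) * hp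
    · linear_combination p' * hdet - (τ 1 1) * hp - τ 0 1 * τ 1 0 * p' * hp
  rw [key]
  exact Submonoid.mul_mem _ (Submonoid.mul_mem _ (transvection_mem_E h01.symm _) hw)
    (transvection_mem_E h01 _)

lemma PS_nil_two (y z Y Z n : B) (h : y * Y + z * Z = 1) (hn : IsNilpotent n) :
    ∃ τ ∈ E (Fin 2) B, ![y, z] ᵥ* τ = ![y + n, z] := by
  have h1 : IsUnit (1 + n * Y) := by
    have : IsNilpotent (n * Y) := (Commute.all n Y).isNilpotent_mul_right hn
    exact this.isUnit_one_add
  obtain ⟨w, hw⟩ := h1.exists_right_inv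
  have h2 : IsUnit (Y * (y + n) + z * w * Z) := by
    have e : Y * (y + n) + z * w * Z = 1 + n * (Y * (1 - z * Z * w)) := by
      linear_combination h + z * Z * hw
    have : IsNilpotent (n * (Y * (1 - z * Z * w))) :=
      (Commute.all n _).isNilpotent_mul_right hn
    rw [e]
    exact this.isUnit_one_add
  obtain ⟨p', hp'⟩ := h2.exists_right_inv
  refine ⟨!![Y * (y + n) + z * w * Z, Y * z - z * w * Y; Z * (y + n) - y * w * Z,
    Z * z + y * w * Y], PS_mem_elem_two _ ?_ p' ?_, ?_⟩
  · rw [det_fin_two_of]
    linear_combination (w * (y * Y + z * Z + n * Y) + w) * h + hw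
  · simpa using hp'
  · ext i
    fin_cases i
    · simp [vecMul, dotProduct, Fin.sum_univ_two]
      linear_combination (y + n) * h
    · simp [vecMul, dotProduct, Fin.sum_univ_two]
      linear_combination z * h

end two

section PS_embed

variable {A ι : Type*} [CommRing A] [Fintype ι] [DecidableEq ι]

/-- the row with entries `p`, `q` at `j`, `k` -/
def PS_rw2 (v : ι → A) (j k : ι) (p q : A) : ι → A := Function.update (Function.update v j p) k q

lemma PS_rw2_self (v : ι → A) (j k : ι) : PS_rw2 v j k (v j) (v k) = v := by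
  unfold PS_rw2; rw [Function.update_eq_self]
  simp

lemma PS_rw2_k (v : ι → A) (j k : ι) (p q : A) : PS_rw2 v j k p q k = q := by
  unfold PS_rw2; simp

lemma PS_rw2_j (v : ι → A) (j k : ι) (h : j ≠ k) (p q : A) : PS_rw2 v j k p q j = p := by
  unfold PS_rw2; rw [Function.update_of_ne h]; simp

lemma PS_rw2_l (v : ι → A) (j k l : ι) (h1 : l ≠ j) (h2 : l ≠ k) (p q : A) :
    PS_rw2 v j k p q l = v l := by
  unfold PS_rw2; rw [Function.update_of_ne h2, Function.update_of_ne h1]

lemma PS_update_rw2_k (v : ι → A) (j k : ι) (p q q' : A) :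
    Function.update (PS_rw2 v j k p q) k q' = PS_rw2 v j k p q' := by
  unfold PS_rw2; simp

lemma PS_update_rw2_j (v : ι → A) (j k : ι) (h : j ≠ k) (p p' q : A) :
    Function.update (PS_rw2 v j k p q) j p' = PS_rw2 v j k p' q := by
  unfold PS_rw2; rw [Function.update_comm h.symm]; simp

lemma PS_rw2_congr (v : ι → A) (j k : ι) (h : j ≠ k) (p q p' q' : A)
    (hp : p' - p ∈ Ideal.span (v '' {l | l ≠ j ∧ l ≠ k}))
    (hq : q' - q ∈ Ideal.span (v '' {l | l ≠ j ∧ l ≠ k})) :
    EEq (PS_rw2 v j k p q) (PS_rw2 v j k p' q') := by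
  have him : ∀ p q, (PS_rw2 v j k p q) '' {l | l ≠ j ∧ l ≠ k} = v '' {l | l ≠ j ∧ l ≠ k} := by
    intro p q
    refine Set.image_congr ?_
    rintro l ⟨h1, h2⟩
    exact PS_rw2_l v j k l h1 h2 p q
  have e1 := EEq.add_span (PS_rw2 v j k p q) j {l | l ≠ j ∧ l ≠ k} (by simp) (p' - p)
    (by rw [him]; exact hp)
  rw [PS_rw2_j v j k h, PS_update_rw2_j v j k h, add_sub_cancel] at e1
  have e2 := EEq.add_span (PS_rw2 v j k p' q) k {l | l ≠ j ∧ l ≠ k} (by simp) (q' - q)
    (by rw [him]; exact hq)
  rw [PS_rw2_k, PS_update_rw2_k, add_sub_cancel] at e2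
  exact e1.trans e2

lemma PS_embed (v : ι → A) (j k : ι) (h : j ≠ k) (I : Ideal A)
    (hI : I = Ideal.span (v '' {l | l ≠ j ∧ l ≠ k})) (τ : Matrix (Fin 2) (Fin 2) (A ⧸ I))
    (hτ : τ ∈ E (Fin 2) (A ⧸ I)) :
    ∀ p q p' q' : A, ![Ideal.Quotient.mk I p, Ideal.Quotient.mk I q] ᵥ* τ =
      ![Ideal.Quotient.mk I p', Ideal.Quotient.mk I q'] →
      EEq (PS_rw2 v j k p q) (PS_rw2 v j k p' q') := by
  induction hτ using Submonoid.closure_induction with
  | mem g hg =>
    obtain ⟨a, b, c, hab, rfl⟩ := hg
    obtain ⟨c, rfl⟩ := Ideal.Quotient.mk_surjective c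
    intro p q p' q' he
    rw [PS_vecMul_transvection] at he
    have hab' : (a = 0 ∧ b = 1) ∨ (a = 1 ∧ b = 0) := by
      fin_cases a <;> fin_cases b <;> simp_all
    rcases hab' with ⟨rfl, rfl⟩ | ⟨rfl, rfl⟩
    · have h0 := congrFun he 0
      have h1 := congrFun he 1
      simp only [Function.update_self, ne_eq, zero_ne_one, not_false_eq_true,
        Function.update_of_ne, cons_val_zero, cons_val_one] at h0 h1
      rw [← map_mul, ← map_add, Ideal.Quotient.eq] at h1
      rw [Ideal.Quotient.eq] at h0
      have e1 := EEq.add (PS_rw2 v j k p q) j k h c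
      rw [PS_rw2_k, PS_rw2_j v j k h, PS_update_rw2_k] at e1
      refine e1.trans (PS_rw2_congr v j k h _ _ _ _ ?_ ?_)
      · rw [← hI, ← neg_sub]; exact neg_mem h0
      · rw [← hI, ← neg_sub]; exact neg_mem h1
    · have h0 := congrFun he 0
      have h1 := congrFun he 1
      simp only [Function.update_self, ne_eq, one_ne_zero, not_false_eq_true,
        Function.update_of_ne, cons_val_zero, cons_val_one] at h0 h1
      rw [← map_mul, ← map_add, Ideal.Quotient.eq] at h0
      rw [Ideal.Quotient.eq] at h1
      have e1 := EEq.add (PS_rw2 v j k p q) k j h.symm c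
      rw [PS_rw2_k, PS_rw2_j v j k h, PS_update_rw2_j v j k h] at e1
      refine e1.trans (PS_rw2_congr v j k h _ _ _ _ ?_ ?_)
      · rw [← hI, ← neg_sub]; exact neg_mem h0
      · rw [← hI, ← neg_sub]; exact neg_mem h1
  | one =>
    intro p q p' q' he
    rw [vecMul_one] at he
    have h0 := congrFun he 0
    have h1 := congrFun he 1
    simp only [cons_val_zero, cons_val_one] at h0 h1
    rw [Ideal.Quotient.eq] at h0 h1
    refine PS_rw2_congr v j k h _ _ _ _ ?_ ?_
    · rw [← hI, ← neg_sub]; exact neg_mem h0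
    · rw [← hI, ← neg_sub]; exact neg_mem h1
  | mul a b _ _ ha hb =>
    intro p q p' q' he
    rw [← vecMul_vecMul] at he
    set r := ![Ideal.Quotient.mk I p, Ideal.Quotient.mk I q] ᵥ* a with hr
    obtain ⟨x, hx⟩ := Ideal.Quotient.mk_surjective (r 0)
    obtain ⟨y, hy⟩ := Ideal.Quotient.mk_surjective (r 1)
    have hr' : r = ![Ideal.Quotient.mk I x, Ideal.Quotient.mk I y] := by
      ext i; fin_cases i <;> simp [hx, hy]
    refine (ha p q x y (by rw [← hr, hr'])).trans (hb x y p' q' ?_)
    rw [← hr', he]

end PS_embed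

section power

variable {A ι : Type*} [CommRing A] [Fintype ι] [DecidableEq ι]

/-- `v` with `v i` replaced by its `m`-th power -/
def PS_pow1 (v : ι → A) (i : ι) (m : ℕ) : ι → A := Function.update v i (v i ^ m)

/-- adding a multiple of `v i` to `v j` does not change the class of `PS_pow1 v i m` -/
lemma PS_pow1_add_self (v w : ι → A) (hvw : ∑ l, v l * w l = 1) (i j k : ι) (hij : i ≠ j)
    (hik : i ≠ k) (hjk : j ≠ k) (m : ℕ) (a : A) :
    EEq (PS_pow1 v i m) (PS_pow1 (Function.update v j (v j + v i * a)) i m) := by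
  set f := PS_pow1 v i m with hf
  set I := Ideal.span (f '' {l | l ≠ j ∧ l ≠ k}) with hI
  have hfj : f j = v j := by rw [hf, PS_pow1, Function.update_of_ne hij.symm]
  have hfk : f k = v k := by rw [hf, PS_pow1, Function.update_of_ne hik.symm]
  have hfi : f i = v i ^ m := by rw [hf, PS_pow1, Function.update_self]
  have hmem : ∀ l, l ≠ i → l ≠ j → l ≠ k → Ideal.Quotient.mk I (v l) = 0 := by
    intro l h1 h2 h3
    rw [Ideal.Quotient.eq_zero_iff_mem, hI]
    refine Ideal.subset_span ⟨l, ⟨h2, h3⟩, ?_⟩
    rw [hf, PS_pow1, Function.update_of_ne h1]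
  have hnil : IsNilpotent (Ideal.Quotient.mk I (v i)) := by
    refine ⟨m, ?_⟩
    rw [← map_pow, Ideal.Quotient.eq_zero_iff_mem, hI, ← hfi]
    exact Ideal.subset_span ⟨i, ⟨hij, hik⟩, rfl⟩
  set φ := Ideal.Quotient.mk I with hφ
  have hsum : φ (v i) * φ (w i) + φ (v j) * φ (w j) + φ (v k) * φ (w k) = 1 := by
    have h1 := congrArg φ hvw
    rw [map_sum, map_one] at h1
    rw [← h1]
    have h2 : ∑ l, φ (v l * w l) = ∑ l ∈ ({i, j, k} : Finset ι), φ (v l * w l) := by
      refine (Finset.sum_subset (Finset.subset_univ _) ?_).symm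
      intro l _ hl
      simp only [Finset.mem_insert, Finset.mem_singleton, not_or] at hl
      rw [map_mul, hmem l hl.1 hl.2.1 hl.2.2, zero_mul]
    rw [h2, Finset.sum_insert (by simp [hij, hik]), Finset.sum_pair hjk]
    simp only [map_mul]
    ring
  have hu : IsUnit (1 - φ (v i) * φ (w i)) :=
    (((Commute.all _ _).isNilpotent_mul_right hnil : IsNilpotent (φ (v i) * φ (w i)))).isUnit_one_sub
  obtain ⟨u, hu⟩ := hu.exists_right_inv
  obtain ⟨τ, hτ, h3⟩ := PS_nil_two (φ (v j)) (φ (v k)) (φ (w j) * u) (φ (w k) * u)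
    (φ (v i * a)) (by linear_combination hu + u * hsum) (by
      rw [map_mul]; exact (Commute.all _ _).isNilpotent_mul_right hnil)
  have h4 := PS_embed f j k hjk I hI τ hτ (v j) (v k) (v j + v i * a) (v k) (by
    rw [← hφ, h3, map_add])
  have e1 : PS_rw2 f j k (v j) (v k) = f := by
    rw [← hfj, ← hfk, PS_rw2_self]
  have e2 : PS_rw2 f j k (v j + v i * a) (v k) =
      PS_pow1 (Function.update v j (v j + v i * a)) i m := by
    unfold PS_rw2 PS_pow1
    rw [hf, PS_pow1, Function.update_of_ne hij, Function.update_comm hij]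
    have : v k = (Function.update (Function.update v j (v j + v i * a)) i (v i ^ m)) k := by
      rw [Function.update_of_ne hik.symm, Function.update_of_ne hjk.symm]
    conv_lhs => rw [this]
    rw [Function.update_eq_self]
  rwa [e1, e2] at h4

/-- adding a multiple of `v j` to `v i` does not change the class of `PS_pow1 v i m` -/
lemma PS_pow1_add_other (v : ι → A) (i j : ι) (hij : i ≠ j) (m : ℕ) (a : A) :
    EEq (PS_pow1 v i m) (PS_pow1 (Function.update v i (v i + v j * a)) i m) := by
  have h1 : v j ∣ (v i + v j * a) ^ m - v i ^ m := by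
    have := sub_dvd_pow_sub_pow (v i + v j * a) (v i) m
    rw [add_sub_cancel_left] at this
    exact (Dvd.intro _ rfl).trans this
  obtain ⟨c, hc⟩ := h1
  have := EEq.add (PS_pow1 v i m) j i hij.symm c
  convert this using 1
  unfold PS_pow1
  rw [Function.update_self, Function.update_self, Function.update_idem, Function.update_idem,
    Function.update_of_ne hij.symm, ← hc, add_sub_cancel]

/-- **Power shift.** -/
theorem pow_shift (v : ι → A) (hv : Um v) (i j k : ι) (hij : i ≠ j)
    (hik : i ≠ k) (hjk : j ≠ k) (m : ℕ) :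
    EEq (Function.update v i (v i ^ m)) (Function.update v j (v j ^ m)) := by
  set v1 := Function.update v i (v i + v j * 1) with hv1
  set v2 := Function.update v1 j (v1 j + v1 i * (-1)) with hv2
  set v3 := Function.update v2 i (v2 i + v2 j * 1) with hv3
  have u1 : Um v1 := (EEq.add v j i hij.symm 1).um hv
  obtain ⟨w1, hw1⟩ := u1
  have s1 : EEq (PS_pow1 v i m) (PS_pow1 v1 i m) := PS_pow1_add_other v i j hij m 1
  have s2 : EEq (PS_pow1 v1 i m) (PS_pow1 v2 i m) :=
    PS_pow1_add_self v1 w1 hw1 i j k hij hik hjk m (-1)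
  have s3 : EEq (PS_pow1 v2 i m) (PS_pow1 v3 i m) := PS_pow1_add_other v2 i j hij m 1
  have e1i : v1 i = v i + v j := by rw [hv1, Function.update_self, mul_one]
  have e1j : v1 j = v j := by rw [hv1, Function.update_of_ne hij.symm]
  have e2j : v2 j = -v i := by
    rw [hv2, Function.update_self, e1i, e1j]; ring
  have e2i : v2 i = v i + v j := by
    rw [hv2, Function.update_of_ne hij, e1i]
  have e3i : v3 i = v j := by
    rw [hv3, Function.update_self, e2i, e2j]; ring
  have e3j : v3 j = -v i := by
    rw [hv3, Function.update_of_ne hij.symm, e2j]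
  set r := PS_pow1 v3 i m with hr
  have ri : r i = v j ^ m := by rw [hr, PS_pow1, Function.update_self, e3i]
  have rj : r j = -v i := by rw [hr, PS_pow1, Function.update_of_ne hij.symm, e3j]
  set r1 := Function.update r i (r i + r j * (-1)) with hr1
  set r2 := Function.update r1 j (r1 j + r1 i * 1) with hr2
  set r3 := Function.update r2 i (r2 i + r2 j * (-1)) with hr3
  have t1 : EEq r r1 := EEq.add r j i hij.symm _
  have t2 : EEq r1 r2 := EEq.add r1 i j hij _
  have t3 : EEq r2 r3 := EEq.add r2 j i hij.symm _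
  have f1i : r1 i = v j ^ m + v i := by rw [hr1, Function.update_self, ri, rj]; ring
  have f1j : r1 j = -v i := by rw [hr1, Function.update_of_ne hij.symm, rj]
  have f2j : r2 j = v j ^ m := by rw [hr2, Function.update_self, f1i, f1j]; ring
  have f2i : r2 i = v j ^ m + v i := by rw [hr2, Function.update_of_ne hij, f1i]
  have f3i : r3 i = v i := by rw [hr3, Function.update_self, f2i, f2j]; ring
  have f3j : r3 j = v j ^ m := by rw [hr3, Function.update_of_ne hij.symm, f2j]
  have hfin : r3 = Function.update v j (v j ^ m) := by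
    ext l
    by_cases hli : l = i
    · rw [hli, f3i, Function.update_of_ne hij]
    · by_cases hlj : l = j
      · rw [hlj, f3j, Function.update_self]
      · rw [Function.update_of_ne hlj, hr3, Function.update_of_ne hli, hr2,
          Function.update_of_ne hlj, hr1, Function.update_of_ne hli, hr, PS_pow1,
          Function.update_of_ne hli, hv3, Function.update_of_ne hli, hv2,
          Function.update_of_ne hlj, hv1, Function.update_of_ne hli]
  have := ((((s1.trans s2).trans s3).trans t1).trans t2).trans t3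
  rwa [hfin] at this

/-- the row of powers -/
def PS_pw (v : ι → A) (e : ι → ℕ) : ι → A := fun l => v l ^ e l

lemma Um.pw {v : ι → A} (hv : Um v) (e : ι → ℕ) : Um (PS_pw v e) := by
  rw [um_iff_span] at hv ⊢
  have h := Ideal.span_pow_eq_top (Set.range v) hv (∑ l, e l)
  rw [eq_top_iff, ← h, Ideal.span_le]
  rintro _ ⟨_, ⟨l, rfl⟩, rfl⟩
  have hle : e l ≤ ∑ l, e l := Finset.single_le_sum (fun _ _ => Nat.zero_le _) (Finset.mem_univ l)
  obtain ⟨c, hc⟩ := Nat.exists_eq_add_of_le hle
  change v l ^ (∑ l, e l) ∈ _
  rw [hc, pow_add]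
  exact Ideal.mul_mem_right _ _ (Ideal.subset_span ⟨l, rfl⟩)

lemma PS_shift_exp {v : ι → A} (hv : Um v) (i j k : ι) (hij : i ≠ j)
    (hik : i ≠ k) (hjk : j ≠ k) (e : ι → ℕ) (b : ℕ) :
    EEq (PS_pw v (Function.update e i (e i * b))) (PS_pw v (Function.update e j (e j * b))) := by
  have h := pow_shift (PS_pw v e) (hv.pw e) i j k hij hik hjk b
  have key : ∀ i, Function.update (PS_pw v e) i (PS_pw v e i ^ b) =
      PS_pw v (Function.update e i (e i * b)) := by
    intro i
    ext l
    by_cases hl : l = i
    · subst hl; simp [PS_pw, pow_mul]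
    · simp [PS_pw, Function.update_of_ne hl]
  rwa [key, key] at h

lemma PS_third (h3 : 3 ≤ Fintype.card ι) (i j : ι) : ∃ k, i ≠ k ∧ j ≠ k := by
  by_contra hcon
  push Not at hcon
  have : (Finset.univ : Finset ι) ⊆ {i, j} := by
    intro k _
    by_cases hk : i = k
    · simp [hk]
    · simp [hcon k hk]
  have h2 := Finset.card_le_card this
  rw [Finset.card_univ] at h2
  have h4 : ({i, j} : Finset ι).card ≤ 2 := Finset.card_le_two
  omega

/-- all powers can be collected at one place -/
theorem PS_collect {v : ι → A} (hv : Um v) (h3 : 3 ≤ Fintype.card ι) (i₀ : ι) (e : ι → ℕ) :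
    EEq (PS_pw v e) (Function.update v i₀ (v i₀ ^ (∏ l, e l))) := by
  have key : ∀ S : Finset ι, i₀ ∉ S →
      EEq (PS_pw v e) (PS_pw v (fun l => if l = i₀ then e i₀ * ∏ s ∈ S, e s
        else if l ∈ S then 1 else e l)) := by
    intro S
    induction S using Finset.induction_on with
    | empty =>
      intro _
      have : (fun l => if l = i₀ then e i₀ * ∏ s ∈ (∅ : Finset ι), e s
        else if l ∈ (∅ : Finset ι) then 1 else e l) = e := by
        ext l
        by_cases hl : l = i₀
        · subst hl; simp
        · simp [hl]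
      rw [this]
      exact EEq.refl _
    | insert a S ha ih =>
      intro hS
      rw [Finset.mem_insert, not_or] at hS
      refine (ih hS.2).trans ?_
      obtain ⟨k, hk1, hk2⟩ := PS_third h3 a i₀
      set e' : ι → ℕ := fun l => if l = i₀ then e i₀ * ∏ s ∈ S, e s
        else if l ∈ insert a S then 1 else e l with he'
      have h := PS_shift_exp hv a i₀ k (Ne.symm hS.1) hk1 hk2 e' (e a)
      convert h using 2
      · ext l
        by_cases hl : l = a
        · subst hl
          simp [he', Ne.symm hS.1, ha]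
        · simp [Function.update_of_ne hl, he', hl]
      · ext l
        by_cases hl : l = i₀
        · subst hl
          simp [he', Finset.prod_insert ha]; ring
        · simp [Function.update_of_ne hl, he', hl]
  have h := key (Finset.univ.erase i₀) (by simp)
  convert h using 1
  ext l
  by_cases hl : l = i₀
  · subst hl
    simp only [Function.update_self, PS_pw, if_true]
    rw [Finset.mul_prod_erase Finset.univ e (Finset.mem_univ l)]
  · simp [Function.update_of_ne hl, PS_pw, hl]

end power

/-- `Fin` form of the normal form theorem. -/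
theorem PS_factorial_fin {A : Type*} [CommRing A] (n : ℕ) (v : Fin (n + 3) → A) (hv : Um v) :
    Comp (Function.update v 0 (v 0 ^ (n + 2).factorial)) := by
  have h1 := SL_suslin_factorial (n + 1) A v hv
  have h2 := PS_collect hv (by simp) 0 (fun i : Fin (n + 3) => max 1 (i : ℕ))
  have h3 : ∏ l : Fin (n + 3), max 1 (l : ℕ) = (n + 2).factorial := by
    rw [Fin.prod_univ_succ, ← Finset.prod_range_add_one_eq_factorial]
    rw [← Fin.prod_univ_eq_prod_range (fun i => i + 1) (n + 2)]
    simp
  rw [h3] at h2
  exact h2.comp h1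

/-- **Suslin's theorem.** In a unimodular row of length `n ≥ 3` replace one entry by a power
whose exponent is divisible by `(n - 1)!`: the row becomes completable. -/
theorem comp_pow_factorial {A ι : Type*} [CommRing A] [Fintype ι] [DecidableEq ι]
    (v : ι → A) (hv : Um v) (h3 : 3 ≤ Fintype.card ι) (i₀ : ι) (m : ℕ)
    (hm : (Fintype.card ι - 1).factorial ∣ m) :
    Comp (Function.update v i₀ (v i₀ ^ m)) := by
  obtain ⟨n, hn⟩ : ∃ n, Fintype.card ι = n + 3 := ⟨Fintype.card ι - 3, by omega⟩
  obtain ⟨q, rfl⟩ := hm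
  have hn1 : Fintype.card ι - 1 = n + 2 := by omega
  rw [hn1]
  let e0 : ι ≃ Fin (n + 3) := Fintype.equivFinOfCardEq hn
  let e : Fin (n + 3) ≃ ι := (Equiv.swap 0 (e0 i₀)).trans e0.symm
  have he : e 0 = i₀ := by simp [e]
  set u : ι → A := Function.update v i₀ (v i₀ ^ q) with hu
  have hum : Um u := by
    have : u = PS_pw v (fun l => if l = i₀ then q else 1) := by
      ext l
      by_cases hl : l = i₀
      · subst hl; simp [hu, PS_pw]
      · simp [hu, PS_pw, hl]
    rw [this]
    exact hv.pw _
  have hum' : Um (u ∘ e) := by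
    obtain ⟨w, hw⟩ := hum
    refine ⟨w ∘ e, ?_⟩
    rw [← hw, dotProduct, dotProduct]
    exact Equiv.sum_comp e (fun l => u l * w l)
  have h := PS_factorial_fin n (u ∘ e) hum'
  refine Comp.of_comp e ?_
  convert h using 1
  ext l
  by_cases hl : l = 0
  · subst hl
    simp only [Function.comp_apply, Function.update_self, he, hu]
    rw [← pow_mul, mul_comm]
  · have hl' : e l ≠ i₀ := by
      rw [← he]; exact fun h => hl (e.injective h)
    simp [Function.update_of_ne hl, Function.update_of_ne hl', hu]

/-- `(a ^ 2, b, c)` is completable. -/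
theorem comp_sq_three {A : Type*} [CommRing A] (a b c : A) (h : Um ![a, b, c]) :
    Comp ![a ^ 2, b, c] := by
  have := comp_pow_factorial ![a, b, c] h (by simp) 0 2 (by simp [Nat.factorial])
  convert this using 1
  ext l
  fin_cases l <;> simp

end GB
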