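import Pool.Agent.helper70.GB.SpecF
import Pool.Agent.helper44.GB.PS

/-!
# Project gb: NF, Suslin's factorial theorem in `Fin.append` form
-/

namespace GB

open Matrix

universe u

theorem NF_row {A : Type*} [CommRing A] (k m : ℕ) (a b c : A) (x : Fin k → A) :
    Function.update (Fin.append ![a, b, c] x) (Fin.castAdd k 0)
      ((Fin.append ![a, b, c] x) (Fin.castAdd k 0) ^ m) = Fin.append ![a ^ m, b, c] x := by
  ext i
  refine Fin.addCases (fun j => ?_) (fun j => ?_) i
  · by_cases hj : j = 0
    · subst hj
      rw [Function.update_self, Fin.append_left, Fin.append_left]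
      rfl
    · rw [Function.update_of_ne (by simpa using hj), Fin.append_left, Fin.append_left]
      fin_cases j
      · exact absurd rfl hj
      · rfl
      · rfl
  · rw [Function.update_of_ne, Fin.append_right, Fin.append_right]
    intro h
    have := congrArg Fin.val h
    simp at this

theorem NF : NF_stmt.{u} := by
  intro A _ k a b c x h
  have hm : (k + 2).factorial ≠ 0 := Nat.factorial_ne_zero _
  have hum : Um (Fin.append ![a, b, c] x) := by
    obtain ⟨w, hw⟩ := h
    obtain ⟨q, hq⟩ : ∃ q, (k + 2).factorial = q + 1 := Nat.exists_eq_succ_of_ne_zero hm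
    refine ⟨Function.update w (Fin.castAdd k 0) (a ^ q * w (Fin.castAdd k 0)), ?_⟩
    rw [← hw, dotProduct, dotProduct]
    refine Finset.sum_congr rfl fun i _ => ?_
    rw [← NF_row]
    by_cases hi : i = Fin.castAdd k 0
    · subst hi
      rw [Function.update_self, Function.update_self, Fin.append_left, hq, pow_succ]
      simp only [cons_val_zero]
      ring
    · rw [Function.update_of_ne hi, Function.update_of_ne hi]
  rw [← NF_row]
  exact comp_pow_factorial _ hum (by simp) _ _ (by simp [show 3 + k - 1 = k + 2 by omega])

end GB
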