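import Pool.Agent.helper70.GB.Defs

/-!
Suslin's factorial theorem, first form: for a commutative ring `A` and a unimodular row
`(a 0, ..., a n)`, `n ≥ 1`, the row `(a 0, a 1, a 2 ^ 2, ..., a n ^ n)` is the first row of a
matrix of determinant one.
-/

namespace GB

set_option linter.unusedSimpArgs false

open Matrix

section whitehead

variable {A ι : Type*} [CommRing A] [Fintype ι] [DecidableEq ι]

lemma SL_wh_mul (i j : ι) (hij : i ≠ j) (x y z : A) :
    transvection i j x * transvection j i y * transvection i j z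
      = 1 + single i j (x + z + x * y * z) + single j i y
        + single i i (x * y) + single j j (y * z) := by
  have hji : j ≠ i := hij.symm
  simp only [transvection, Matrix.mul_add, Matrix.add_mul, Matrix.one_mul, Matrix.mul_one,
    single_mul_single_same, single_mul_single_of_ne _ _ _ _ hji, single_add, add_zero]
  abel

/-- the Whitehead product of six transvections -/
def SL_wh (i j : ι) (b c : A) : Matrix ι ι A :=
  (transvection i j b * transvection j i (-c) * transvection i j b) *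
    (transvection i j (-1) * transvection j i 1 * transvection i j (-1))

lemma SL_wh_det (i j : ι) (hij : i ≠ j) (b c : A) : (SL_wh i j b c).det = 1 := by
  simp only [SL_wh, det_mul, det_transvection_of_ne _ _ hij, det_transvection_of_ne _ _ hij.symm,
    mul_one]

lemma SL_wh_eq (i j : ι) (hij : i ≠ j) (b c : A) (h : b * c = 1) :
    SL_wh i j b c = diagonal (fun k => if k = i then b else if k = j then c else 1) := by
  have hji : j ≠ i := hij.symm
  have h1 : b + b + b * -c * b = b := by linear_combination (-b) * h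
  have h2 : (-1 : A) + -1 + -1 * 1 * -1 = -1 := by ring
  rw [SL_wh, SL_wh_mul i j hij, SL_wh_mul i j hij, h1, h2]
  have e1 : b * -c = -1 := by linear_combination -h
  have e2 : -c * b = -1 := by linear_combination -h
  rw [e1, e2]
  simp only [Matrix.mul_add, Matrix.add_mul, Matrix.one_mul, Matrix.mul_one,
    single_mul_single_same, single_mul_single_of_ne _ _ _ _ hji,
    single_mul_single_of_ne _ _ _ _ hij, add_zero, zero_add]
  ext k l
  simp only [Matrix.add_apply, Matrix.one_apply, Matrix.single_apply, diagonal_apply]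
  by_cases hk : k = i
  · subst hk
    by_cases hl : l = k
    · subst hl; simp [hji, hij]
    · by_cases hl2 : l = j
      · subst hl2; simp [hji, hij]
      · simp [hl, hl2, Ne.symm hl, Ne.symm hl2, hji]
  · by_cases hk2 : k = j
    · subst hk2
      by_cases hl : l = k
      · subst hl; simp [hji, hij, hk, Ne.symm hk]
      · by_cases hl2 : l = i
        · subst hl2; simp [hji, hij]
        · simp [hl, hl2, Ne.symm hl, Ne.symm hl2, hij, hji]
    · simp [hk, hk2, Ne.symm hk, Ne.symm hk2]

lemma SL_transvection_map {B : Type*} [CommRing B] (φ : A →+* B) (i j : ι) (c : A) :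
    φ.mapMatrix (transvection i j c) = transvection i j (φ c) := by
  rw [transvection, transvection, map_add, map_one, RingHom.mapMatrix_apply]
  congr 1
  ext k l
  rw [Matrix.map_apply, Matrix.single_apply, Matrix.single_apply]
  split_ifs <;> simp

lemma SL_wh_map {B : Type*} [CommRing B] (φ : A →+* B) (i j : ι) (b c : A) :
    φ.mapMatrix (SL_wh i j b c) = SL_wh i j (φ b) (φ c) := by
  simp only [SL_wh, map_mul, SL_transvection_map, map_neg, map_one]

end whitehead

section step

variable {A κ : Type*} [CommRing A] [Fintype κ] [DecidableEq κ]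

/-- Whitehead over the quotient by `1 + b t`, all indices at once. -/
lemma SL_wh_all (b t : A) (S : Finset κ) :
    ∃ ε : Matrix (Unit ⊕ κ) (Unit ⊕ κ) A, ε.det = 1 ∧
      (Ideal.Quotient.mk (Ideal.span {1 + b * t})).mapMatrix ε =
        diagonal (Sum.elim (fun _ => (Ideal.Quotient.mk (Ideal.span {1 + b * t}) b) ^ S.card)
          (fun k => if k ∈ S then Ideal.Quotient.mk (Ideal.span {1 + b * t}) (-t) else 1)) := by
  classical
  set φ := Ideal.Quotient.mk (Ideal.span {1 + b * t}) with hφ
  have hbt : φ b * φ (-t) = 1 := by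
    have h0 : φ (1 + b * t) = 0 := by
      rw [hφ, Ideal.Quotient.eq_zero_iff_mem]; exact Ideal.subset_span rfl
    have : φ b * φ (-t) = 1 - φ (1 + b * t) := by
      rw [← map_mul, ← map_one φ, ← map_sub]; congr 1; ring
    rw [this, h0, sub_zero]
  induction S using Finset.induction_on with
  | empty => 
    refine ⟨1, det_one, ?_⟩
    rw [map_one]
    ext i j
    rcases i with i | i <;> rcases j with j | j <;> simp [Matrix.one_apply, diagonal_apply]
  | insert a S ha ih =>
    obtain ⟨ε, hε, hm⟩ := ih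
    refine ⟨ε * SL_wh (Sum.inl ()) (Sum.inr a) b (-t), ?_, ?_⟩
    · rw [det_mul, hε, SL_wh_det _ _ (by simp), mul_one]
    · rw [map_mul, hm, SL_wh_map, SL_wh_eq _ _ (by simp) _ _ hbt, diagonal_mul_diagonal]
      congr 1
      ext i
      rcases i with i | i
      · simp [Finset.card_insert_of_notMem ha, pow_succ]
      · by_cases hi : i = a
        · subst hi; simp [ha]
        · by_cases hi2 : i ∈ S <;> simp [hi, hi2]

/-- Whitehead: `b ε = diag (b ^ n, 1, ..., 1)` modulo `1 + b t`. -/
lemma SL_wh_final (b t : A) :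
    ∃ ε X : Matrix (Unit ⊕ κ) (Unit ⊕ κ) A, ε.det = 1 ∧
      b • ε = diagonal (Sum.elim (fun _ => b ^ (Fintype.card κ + 1)) (fun _ => 1))
        + (1 + b * t) • X := by
  classical
  obtain ⟨ε, hε, hm⟩ := SL_wh_all (κ := κ) b t Finset.univ
  set φ := Ideal.Quotient.mk (Ideal.span {1 + b * t}) with hφ
  have hbt : φ b * φ (-t) = 1 := by
    have h0 : φ (1 + b * t) = 0 := by
      rw [hφ, Ideal.Quotient.eq_zero_iff_mem]; exact Ideal.subset_span rfl
    have : φ b * φ (-t) = 1 - φ (1 + b * t) := by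
      rw [← map_mul, ← map_one φ, ← map_sub]; congr 1; ring
    rw [this, h0, sub_zero]
  have key : ∀ i j, ∃ x, b * ε i j =
      (diagonal (Sum.elim (fun _ : Unit => b ^ (Fintype.card κ + 1)) (fun _ : κ => (1 : A)))) i j
        + (1 + b * t) * x := by
    intro i j
    have h1 : φ (b * ε i j) = φ ((diagonal (Sum.elim (fun _ : Unit => b ^ (Fintype.card κ + 1))
        (fun _ : κ => (1 : A)))) i j) := by
      have h2 : φ (ε i j) = (φ.mapMatrix ε) i j := rfl
      rw [map_mul, h2, hm]
      rcases i with i | i <;> rcases j with j | j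
      · simp [diagonal_apply, pow_succ, mul_comm]
      · simp [diagonal_apply]
      · simp [diagonal_apply]
      · by_cases hij : i = j
        · subst hij
          simpa [diagonal_apply] using hbt
        · simp [diagonal_apply, hij]
    rw [hφ, Ideal.Quotient.eq, Ideal.mem_span_singleton] at h1
    obtain ⟨x, hx⟩ := h1
    exact ⟨x, by rw [← hx]; ring⟩
  choose X hX using key
  refine ⟨ε, Matrix.of X, hε, ?_⟩
  ext i j
  rw [Matrix.smul_apply, Matrix.add_apply, Matrix.smul_apply, smul_eq_mul, smul_eq_mul, hX i j]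
  rfl

/-- Suslin: if `α` has determinant `1 + b t`, its first row extended by `b ^ n` is completable. -/
theorem SL_suslin_step (α : Matrix (Unit ⊕ κ) (Unit ⊕ κ) A) (b t : A) (h : α.det = 1 + b * t) :
    Comp (Sum.elim (α (Sum.inl ())) (fun _ : Unit => b ^ (Fintype.card κ + 1))) := by
  classical
  obtain ⟨ε, X, hε, hX⟩ := SL_wh_final (κ := κ) b t
  set D : Matrix (Unit ⊕ κ) (Unit ⊕ κ) A :=
    diagonal (Sum.elim (fun _ => b ^ (Fintype.card κ + 1)) (fun _ => 1)) with hD
  have h1 : α * α.adjugate = (1 + b * t) • (1 : Matrix (Unit ⊕ κ) (Unit ⊕ κ) A) := by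
    rw [mul_adjugate, h]
  have h2 : α.adjugate * α = (1 + b * t) • (1 : Matrix (Unit ⊕ κ) (Unit ⊕ κ) A) := by
    rw [adjugate_mul, h]
  set W : Matrix ((Unit ⊕ κ) ⊕ (Unit ⊕ κ)) ((Unit ⊕ κ) ⊕ (Unit ⊕ κ)) A :=
    fromBlocks (t • 1) α.adjugate α (b • 1) with hW
  have hWdet : IsUnit W.det := by
    have : W * fromBlocks (-b • 1) α.adjugate α (-t • 1) = 1 := by
      refine Eq.trans ?_ fromBlocks_one
      rw [hW, fromBlocks_multiply, h1, h2]
      congr 1
      · rw [Matrix.smul_mul, Matrix.one_mul, smul_smul, ← add_smul]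
        rw [show t * -b + (1 + b * t) = 1 by ring, one_smul]
      · simp [smul_smul]
      · simp [smul_smul]
      · rw [Matrix.smul_mul, Matrix.one_mul, smul_smul, ← add_smul]
        rw [show 1 + b * t + b * -t = 1 by ring, one_smul]
    exact (Matrix.isUnit_iff_isUnit_det _).1 (IsUnit.of_mul_eq_one _ this)
  set C1 : Matrix ((Unit ⊕ κ) ⊕ (Unit ⊕ κ)) ((Unit ⊕ κ) ⊕ (Unit ⊕ κ)) A :=
    fromBlocks 1 0 0 ε with hC1
  set C2 : Matrix ((Unit ⊕ κ) ⊕ (Unit ⊕ κ)) ((Unit ⊕ κ) ⊕ (Unit ⊕ κ)) A :=
    fromBlocks 1 (-(α.adjugate * X)) 0 1 with hC2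
  have hC1d : C1.det = 1 := by rw [hC1, det_fromBlocks_zero₂₁, hε, det_one, one_mul]
  have hC2d : C2.det = 1 := by rw [hC2, det_fromBlocks_zero₂₁, det_one, one_mul]
  set Z := W * C1 * C2 with hZ
  have hZdet : IsUnit Z.det := by
    rw [hZ, det_mul, det_mul, hC1d, hC2d, mul_one, mul_one]; exact hWdet
  have hZb : Z = fromBlocks (t • 1) (α.adjugate * ε - t • (α.adjugate * X)) α D := by
    rw [hZ, hW, hC1, hC2, fromBlocks_multiply, fromBlocks_multiply]
    congr 1
    · simp
    · simp [sub_eq_add_neg, add_comm]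
    · simp
    · rw [Matrix.mul_one, Matrix.mul_zero, add_zero, Matrix.mul_zero, zero_add, Matrix.smul_mul,
        Matrix.one_mul, hX, Matrix.mul_neg, ← Matrix.mul_assoc, h1, Matrix.smul_mul,
        Matrix.one_mul, Matrix.mul_one]
      abel
  -- reindex
  set e := Equiv.sumAssoc (Unit ⊕ κ) Unit κ with he
  set N := Z.submatrix e e with hN
  have hNdet : IsUnit N.det := by
    rw [hN, det_submatrix_equiv_self]; exact hZdet
  have hN22 : N.toBlocks₂₂ = 1 := by
    ext i j
    rw [hN, hZb]
    simp [toBlocks₂₂, he, hD, diagonal_apply, Matrix.one_apply]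
  have hN' : N = fromBlocks N.toBlocks₁₁ N.toBlocks₁₂ N.toBlocks₂₁ 1 := by
    rw [← hN22, fromBlocks_toBlocks]
  refine ⟨Sum.inr (), N.toBlocks₁₁ - N.toBlocks₁₂ * N.toBlocks₂₁, ?_, ?_⟩
  · rw [hN', det_fromBlocks_one₂₂] at hNdet
    exact hNdet
  · ext j
    have hrow : ∀ k, N.toBlocks₁₂ (Sum.inr ()) k = 0 := by
      intro k
      rw [hN, hZb]
      simp [toBlocks₁₂, he, hD]
    rw [Matrix.sub_apply, Matrix.mul_apply]
    simp only [hrow, zero_mul, Finset.sum_const_zero, sub_zero]
    rw [hN, hZb]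
    rcases j with j | j
    · simp [toBlocks₁₁, he]
    · simp [toBlocks₁₁, he, hD]

end step

section cpl

variable {A ι ι' : Type*} [CommRing A] [Fintype ι] [DecidableEq ι] [Fintype ι'] [DecidableEq ι']

lemma Comp.reindex {v : ι → A} (h : Comp v) (e : ι' ≃ ι) : Comp (v ∘ e) := by
  obtain ⟨i, M, hM, hv⟩ := h
  refine ⟨e.symm i, M.submatrix e e, ?_, ?_⟩
  · rwa [det_submatrix_equiv_self]
  · ext j
    simp [← hv]

lemma Comp.of_comp {v : ι → A} (e : ι' ≃ ι) (h : Comp (v ∘ e)) : Comp v := by
  have := h.reindex e.symm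
  rwa [Function.comp_assoc, Equiv.self_comp_symm, Function.comp_id] at this

lemma Comp.exists_det_one {v : ι → A} (h : Comp v) (i₀ j₀ : ι) (hij : i₀ ≠ j₀) :
    ∃ M : Matrix ι ι A, M.det = 1 ∧ M i₀ = v := by
  obtain ⟨i, M, hM, hv⟩ := h
  set N := M.submatrix (Equiv.swap i₀ i) id with hN
  have hNd : IsUnit N.det := by
    rw [hN, det_permute]
    refine IsUnit.mul ?_ hM
    have : IsUnit ((Equiv.Perm.sign (Equiv.swap i₀ i) : ℤˣ) : ℤ) := Units.isUnit _
    simpa using this.map (Int.castRingHom A)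
  have hN0 : N i₀ = v := by
    ext j
    rw [hN, Matrix.submatrix_apply, Equiv.swap_apply_left, hv]
    rfl
  obtain ⟨u, hu⟩ := hNd
  refine ⟨diagonal (fun k => if k = j₀ then ((u⁻¹ : Aˣ) : A) else 1) * N, ?_, ?_⟩
  · rw [det_mul, det_diagonal, ← hu, Finset.prod_ite_eq' Finset.univ j₀ (fun _ => ((u⁻¹ : Aˣ) : A))]
    simp
  · ext j
    rw [Matrix.diagonal_mul, if_neg hij, one_mul, hN0]

lemma Comp.of_det_one {v : ι → A} {M : Matrix ι ι A} {i : ι} (h : M.det = 1) (hv : M i = v) :
    Comp v := ⟨i, M, by rw [h]; exact isUnit_one, hv⟩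

end cpl

/-- `Unit ⊕ Fin n ≃ Fin (n + 1)` with `inl () ↦ 0`. -/
def SL_eqv (n : ℕ) : Unit ⊕ Fin n ≃ Fin (n + 1) where
  toFun := Sum.elim (fun _ => 0) Fin.succ
  invFun := Fin.cases (Sum.inl ()) Sum.inr
  left_inv := by rintro (x | x) <;> simp
  right_inv := by intro x; refine Fin.cases ?_ ?_ x <;> simp

/-- `Fin n ⊕ Unit ≃ Fin (n + 1)` with `inr () ↦ last`. -/
def SL_eqv' (n : ℕ) : Fin n ⊕ Unit ≃ Fin (n + 1) where
  toFun := Sum.elim Fin.castSucc (fun _ => Fin.last n)
  invFun := Fin.lastCases (Sum.inr ()) Sum.inl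
  left_inv := by rintro (x | x) <;> simp
  right_inv := by intro x; refine Fin.lastCases ?_ ?_ x <;> simp

/-- One step in `Fin` form. -/
theorem SL_suslin_step_fin {A : Type*} [CommRing A] (n : ℕ) (v : Fin (n + 2) → A) (b : A)
    (M : Matrix (Fin (n + 2)) (Fin (n + 2)) (A ⧸ Ideal.span {b})) (hM : M.det = 1)
    (hv : ∀ j, M 0 j = Ideal.Quotient.mk _ (v j)) :
    Comp (Fin.snoc (α := fun _ => A) v (b ^ (n + 2))) := by
  classical
  set φ := Ideal.Quotient.mk (Ideal.span {b}) with hφ
  have hsurj : Function.Surjective φ := Ideal.Quotient.mk_surjective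
  choose L hL using hsurj
  set α : Matrix (Fin (n + 2)) (Fin (n + 2)) A :=
    Matrix.of fun i j => if i = 0 then v j else L (M i j) with hα
  have hmap : φ.mapMatrix α = M := by
    ext i j
    rw [RingHom.mapMatrix_apply, Matrix.map_apply, hα, Matrix.of_apply]
    by_cases hi : i = 0
    · subst hi; simp [hv j]
    · simp [hi, hL]
  have hdet : φ α.det = φ 1 := by
    rw [RingHom.map_det, hmap, hM, map_one]
  rw [hφ, Ideal.Quotient.eq, Ideal.mem_span_singleton] at hdet
  obtain ⟨t, ht⟩ := hdet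
  have h1 : (α.submatrix (SL_eqv (n + 1)) (SL_eqv (n + 1))).det = 1 + b * t := by
    rw [det_submatrix_equiv_self, ← ht]; ring
  have h2 := SL_suslin_step (α.submatrix (SL_eqv (n + 1)) (SL_eqv (n + 1))) b t h1
  refine Comp.of_comp ((Equiv.sumCongr (SL_eqv (n + 1)) (Equiv.refl Unit)).trans (SL_eqv' (n + 2))) ?_
  convert h2 using 1
  ext x
  rcases x with x | x
  · simp [SL_eqv', SL_eqv, hα]
  · simp [SL_eqv']

/-- **Suslin's factorial theorem** (first form). -/
theorem SL_suslin_factorial (n : ℕ) : ∀ (A : Type*) [CommRing A] (a : Fin (n + 2) → A),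
    (∃ w : Fin (n + 2) → A, ∑ i, a i * w i = 1) → Comp (fun i => a i ^ (max 1 (i : ℕ))) := by
  induction n with
  | zero =>
    rintro A _ a ⟨w, hw⟩
    rw [Fin.sum_univ_two] at hw
    refine Comp.of_det_one (M := !![a 0, a 1; -w 1, w 0]) (i := 0) ?_ ?_
    · rw [det_fin_two_of]; linear_combination hw
    · ext i
      fin_cases i <;> simp
  | succ n ih =>
    rintro A _ a ⟨w, hw⟩
    set b := a (Fin.last (n + 2)) with hb
    set φ := Ideal.Quotient.mk (Ideal.span {b}) with hφ
    have hφb : φ b = 0 := by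
      rw [hφ, Ideal.Quotient.eq_zero_iff_mem]; exact Ideal.subset_span rfl
    have hum : ∃ w' : Fin (n + 2) → A ⧸ Ideal.span {b},
        ∑ i, φ (a (Fin.castSucc i)) * w' i = 1 := by
      refine ⟨fun i => φ (w (Fin.castSucc i)), ?_⟩
      have := congrArg φ hw
      rw [Fin.sum_univ_castSucc, map_add, map_sum, map_one, map_mul, ← hb, hφb, zero_mul,
        add_zero] at this
      rw [← this]
      exact Finset.sum_congr rfl fun i _ => (map_mul φ _ _).symm
    have h1 := ih (A ⧸ Ideal.span {b}) (fun i => φ (a (Fin.castSucc i))) hum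
    obtain ⟨M, hM, hM0⟩ := h1.exists_det_one 0 1 (by simp)
    have h2 := SL_suslin_step_fin n (fun i => a (Fin.castSucc i) ^ (max 1 (i : ℕ))) b M hM (by
      intro j; rw [hM0]; simp [hφ])
    convert h2 using 1
    ext i
    refine Fin.lastCases ?_ (fun j => ?_) i
    · simp [hb]
    · simp

end GB
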